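import Mathlib

set_option autoImplicit false

namespace Pool.Agent.V11124.PW

open Finset

/-- A set of natural numbers is primitive if no element divides a different element. -/
def Prim (A : Finset ℕ) : Prop := ∀ a ∈ A, ∀ b ∈ A, a ∣ b → a = b

/-- Weighted sum with weights `m^(-σ)`. -/
noncomputable def W (σ : ℝ) (A : Finset ℕ) : ℝ := ∑ a ∈ A, (a : ℝ) ^ (-σ)

/-- Total weight of `[n]`. -/
noncomputable def B (σ : ℝ) (n : ℕ) : ℝ := W σ (Finset.Icc 1 n)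

/-- Maximal density of a primitive subset of `[n]`. -/
noncomputable def F (σ : ℝ) (n : ℕ) : ℝ :=
  sSup {x | ∃ A : Finset ℕ, A ⊆ Finset.Icc 1 n ∧ Prim A ∧ x = W σ A / B σ n}

theorem F_set_finite (σ : ℝ) (n : ℕ) :
    {x | ∃ A : Finset ℕ, A ⊆ Finset.Icc 1 n ∧ Prim A ∧ x = W σ A / B σ n}.Finite := by
  classical
  refine ((Finset.Icc 1 n).powerset.image (fun A => W σ A / B σ n)).finite_toSet.subset ?_
  rintro x ⟨A, hA, _, rfl⟩
  simp only [coe_image, Set.mem_image, SetLike.mem_coe, mem_powerset]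
  exact ⟨A, hA, rfl⟩

theorem le_F (σ : ℝ) (n : ℕ) (A : Finset ℕ) (hA : A ⊆ Finset.Icc 1 n) (hp : Prim A) :
    W σ A / B σ n ≤ F σ n :=
  le_csSup (F_set_finite σ n).bddAbove ⟨A, hA, hp, rfl⟩

theorem exists_F (σ : ℝ) (n : ℕ) :
    ∃ A : Finset ℕ, A ⊆ Finset.Icc 1 n ∧ Prim A ∧ F σ n = W σ A / B σ n := by
  have hne : {x | ∃ A : Finset ℕ, A ⊆ Finset.Icc 1 n ∧ Prim A ∧ x = W σ A / B σ n}.Nonempty :=
    ⟨_, ∅, Finset.empty_subset _, by intro a ha; simp at ha, rfl⟩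
  exact hne.csSup_mem (F_set_finite σ n)

theorem W_nonneg (σ : ℝ) (A : Finset ℕ) : 0 ≤ W σ A :=
  Finset.sum_nonneg fun a _ => Real.rpow_nonneg (Nat.cast_nonneg a) _

theorem W_mono (σ : ℝ) {A C : Finset ℕ} (h : A ⊆ C) : W σ A ≤ W σ C :=
  Finset.sum_le_sum_of_subset_of_nonneg h fun a _ _ => Real.rpow_nonneg (Nat.cast_nonneg a) _

theorem B_succ (σ : ℝ) (n : ℕ) : B σ (n + 1) = B σ n + ((n + 1 : ℕ) : ℝ) ^ (-σ) := by
  unfold B W
  rw [Finset.sum_Icc_succ_top (by omega)]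

theorem B_nonneg (σ : ℝ) (n : ℕ) : 0 ≤ B σ n := W_nonneg _ _

theorem B_mono (σ : ℝ) {m n : ℕ} (h : m ≤ n) : B σ m ≤ B σ n :=
  W_mono σ (Finset.Icc_subset_Icc_right h)

theorem step_up (β x : ℝ) (hβ0 : 0 ≤ β) (hβ1 : β ≤ 1) (hx : 1 ≤ x) :
    (x + 1) ^ β ≤ x ^ β + β * x ^ (β - 1) := by
  have hx0 : 0 < x := by linarith
  have h00 : 0 ≤ 1 / x := by positivity
  have h1 : (1 + 1 / x) ^ β ≤ 1 + β * (1 / x) :=
    rpow_one_add_le_one_add_mul_self (by linarith) hβ0 hβ1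
  have h2 : (x + 1) = x * (1 + 1 / x) := by field_simp
  rw [h2, Real.mul_rpow hx0.le (by positivity), Real.rpow_sub_one hx0.ne']
  have h3 : 0 < x ^ β := Real.rpow_pos_of_pos hx0 _
  calc x ^ β * (1 + 1 / x) ^ β ≤ x ^ β * (1 + β * (1 / x)) := by gcongr
    _ = _ := by ring

theorem step_down (β x : ℝ) (hβ0 : 0 ≤ β) (hβ1 : β ≤ 1) (hx : 1 ≤ x) :
    (x - 1) ^ β ≤ x ^ β - β * x ^ (β - 1) := by
  have hx0 : 0 < x := by linarith
  have h01 : 1 / x ≤ 1 := by rw [div_le_one hx0]; exact hx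
  have h1 : (1 + (-(1 / x))) ^ β ≤ 1 + β * (-(1 / x)) :=
    rpow_one_add_le_one_add_mul_self (by linarith) hβ0 hβ1
  have h2 : (x - 1) = x * (1 + (-(1 / x))) := by field_simp; ring
  have h4 : 0 ≤ 1 + (-(1 / x)) := by
    have : 1 / x ≤ 1 := by rw [div_le_one hx0]; exact hx
    linarith
  rw [h2, Real.mul_rpow hx0.le h4, Real.rpow_sub_one hx0.ne']
  have h3 : 0 < x ^ β := Real.rpow_pos_of_pos hx0 _
  calc x ^ β * (1 + (-(1 / x))) ^ β ≤ x ^ β * (1 + β * (-(1 / x))) := by gcongr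
    _ = _ := by ring

theorem B_upper (σ : ℝ) (h0 : 0 ≤ σ) (h1 : σ < 1) (n : ℕ) :
    B σ n ≤ (n : ℝ) ^ (1 - σ) / (1 - σ) := by
  have hβ : 0 < 1 - σ := by linarith
  induction n with
  | zero => simp [B, W]; positivity
  | succ n ih =>
    rw [B_succ]
    have h2 := step_down (1 - σ) ((n + 1 : ℕ) : ℝ) hβ.le (by linarith) (by push_cast; linarith [(Nat.cast_nonneg n : (0:ℝ) ≤ n)])
    have h3 : (((n + 1 : ℕ) : ℝ) - 1) = n := by push_cast; ring
    have h4 : (1 - σ - 1 : ℝ) = -σ := by ring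
    rw [h3, h4] at h2
    have h5 : ((n : ℝ) ^ (1 - σ)) / (1 - σ) ≤ (((n + 1 : ℕ) : ℝ) ^ (1 - σ) - (1 - σ) * ((n + 1 : ℕ) : ℝ) ^ (-σ)) / (1 - σ) := by
      gcongr
    have h6 : (((n + 1 : ℕ) : ℝ) ^ (1 - σ) - (1 - σ) * ((n + 1 : ℕ) : ℝ) ^ (-σ)) / (1 - σ)
        = ((n + 1 : ℕ) : ℝ) ^ (1 - σ) / (1 - σ) - ((n + 1 : ℕ) : ℝ) ^ (-σ) := by
      field_simp
    linarith

theorem B_lower' (σ : ℝ) (h0 : 0 ≤ σ) (h1 : σ < 1) (n : ℕ) :
    (((n : ℝ) + 1) ^ (1 - σ) - 1) / (1 - σ) ≤ B σ n := by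
  have hβ : 0 < 1 - σ := by linarith
  induction n with
  | zero => simp [B, W]
  | succ n ih =>
    rw [B_succ]
    have h2 := step_up (1 - σ) ((n : ℝ) + 1) hβ.le (by linarith) (by linarith [(Nat.cast_nonneg n : (0:ℝ) ≤ n)])
    have h4 : (1 - σ - 1 : ℝ) = -σ := by ring
    rw [h4] at h2
    push_cast
    have h5 : (((n : ℝ) + 1 + 1) ^ (1 - σ) - 1) / (1 - σ) ≤
        (((n : ℝ) + 1) ^ (1 - σ) + (1 - σ) * ((n : ℝ) + 1) ^ (-σ) - 1) / (1 - σ) := by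
      gcongr
    have h6 : (((n : ℝ) + 1) ^ (1 - σ) + (1 - σ) * ((n : ℝ) + 1) ^ (-σ) - 1) / (1 - σ)
        = (((n : ℝ) + 1) ^ (1 - σ) - 1) / (1 - σ) + ((n : ℝ) + 1) ^ (-σ) := by
      field_simp
      ring
    linarith

theorem B_lower (σ : ℝ) (h0 : 0 ≤ σ) (n : ℕ) (hn : 1 ≤ n) :
    (n : ℝ) ^ (1 - σ) ≤ B σ n := by
  unfold B W
  have hn0 : (0 : ℝ) < n := by exact_mod_cast hn
  have h : ∀ m ∈ Finset.Icc 1 n, (n : ℝ) ^ (-σ) ≤ (m : ℝ) ^ (-σ) := by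
    intro m hm
    rw [mem_Icc] at hm
    have hm0 : (0 : ℝ) < m := by exact_mod_cast hm.1
    exact Real.rpow_le_rpow_of_nonpos hm0 (by exact_mod_cast hm.2) (by linarith)
  have h2 := Finset.sum_le_sum h
  rw [Finset.sum_const, Nat.card_Icc, Nat.add_sub_cancel, nsmul_eq_mul] at h2
  calc (n : ℝ) ^ (1 - σ) = n * (n : ℝ) ^ (-σ) := by
        rw [sub_eq_add_neg, Real.rpow_add hn0, Real.rpow_one]
    _ ≤ _ := h2

theorem B_pos (σ : ℝ) (n : ℕ) (hn : 1 ≤ n) : 0 < B σ n := by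
  unfold B W
  refine Finset.sum_pos (fun m hm => ?_) ⟨1, by simp [hn]⟩
  rw [mem_Icc] at hm
  exact Real.rpow_pos_of_pos (by exact_mod_cast hm.1) _

theorem F_le_one (σ : ℝ) (n : ℕ) : F σ n ≤ 1 := by
  obtain ⟨A, hA, _, h⟩ := exists_F σ n
  rw [h]
  exact div_le_one_of_le₀ (W_mono σ hA) (B_nonneg _ _)

theorem F_nonneg (σ : ℝ) (n : ℕ) : 0 ≤ F σ n := by
  obtain ⟨A, hA, _, h⟩ := exists_F σ n
  rw [h]
  exact div_nonneg (W_nonneg _ _) (B_nonneg _ _)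

theorem Prim.subset {A C : Finset ℕ} (h : Prim C) (hs : A ⊆ C) : Prim A :=
  fun a ha b hb hd => h a (hs ha) b (hs hb) hd

/-- `F` is bounded below by a positive constant. -/
theorem F_lower (σ : ℝ) (h0 : 0 ≤ σ) (h1 : σ < 1) (n : ℕ) (hn : 1 ≤ n) :
    (1 - σ) / 2 ≤ F σ n := by
  have hβ : 0 < 1 - σ := by linarith
  have hn0 : (0 : ℝ) < n := by exact_mod_cast hn
  set A := Finset.Ioc (n / 2) n with hA
  have hsub : A ⊆ Finset.Icc 1 n := by
    intro m hm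
    rw [hA, mem_Ioc] at hm
    rw [mem_Icc]
    omega
  have hprim : Prim A := by
    intro a ha b hb hd
    rw [hA, mem_Ioc] at ha hb
    obtain ⟨c, rfl⟩ := hd
    have : c < 2 := by
      by_contra hc
      push Not at hc
      have : a * 2 ≤ a * c := Nat.mul_le_mul_left _ hc
      omega
    interval_cases c
    · omega
    · simp
  refine le_trans ?_ (le_F σ n A hsub hprim)
  have hcard : (n : ℝ) / 2 ≤ (A.card : ℝ) := by
    rw [hA, Nat.card_Ioc]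
    have : n ≤ 2 * (n - n / 2) := by omega
    have h2 : (n : ℝ) ≤ 2 * ((n - n / 2 : ℕ) : ℝ) := by exact_mod_cast this
    linarith
  have hW : (n : ℝ) ^ (1 - σ) / 2 ≤ W σ A := by
    have h : ∀ m ∈ A, (n : ℝ) ^ (-σ) ≤ (m : ℝ) ^ (-σ) := by
      intro m hm
      have h3 := mem_Icc.1 (hsub hm)
      have hm0 : (0 : ℝ) < m := by exact_mod_cast h3.1
      exact Real.rpow_le_rpow_of_nonpos hm0 (by exact_mod_cast h3.2) (by linarith)
    have h2 := Finset.sum_le_sum h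
    rw [Finset.sum_const, nsmul_eq_mul] at h2
    calc (n : ℝ) ^ (1 - σ) / 2 = (n / 2) * (n : ℝ) ^ (-σ) := by
          rw [sub_eq_add_neg, Real.rpow_add hn0, Real.rpow_one]; ring
      _ ≤ A.card * (n : ℝ) ^ (-σ) := by
          have : 0 ≤ (n : ℝ) ^ (-σ) := by positivity
          gcongr
      _ ≤ _ := h2
  rw [le_div_iff₀ (B_pos σ n hn)]
  have := B_upper σ h0 h1 n
  calc (1 - σ) / 2 * B σ n ≤ (1 - σ) / 2 * ((n : ℝ) ^ (1 - σ) / (1 - σ)) := by gcongr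
    _ = (n : ℝ) ^ (1 - σ) / 2 := by field_simp
    _ ≤ _ := hW

/-- Abel summation. -/
theorem abel (g v : ℕ → ℝ) (n : ℕ) (A : Finset ℕ) (hA : A ⊆ Finset.Icc 1 n) :
    ∑ a ∈ A, g a * v a = v n * ∑ a ∈ A, g a +
      ∑ t ∈ Finset.Ico 1 n, (v t - v (t + 1)) * ∑ a ∈ A.filter (· ≤ t), g a := by
  classical
  have h1 : ∑ t ∈ Finset.Ico 1 n, (v t - v (t + 1)) * ∑ a ∈ A.filter (· ≤ t), g a
      = ∑ a ∈ A, g a * (v a - v n) := by
    calc _ = ∑ t ∈ Finset.Ico 1 n, ∑ a ∈ A, (if a ≤ t then (v t - v (t + 1)) * g a else 0) := by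
          refine Finset.sum_congr rfl fun t _ => ?_
          rw [Finset.mul_sum, Finset.sum_filter]
      _ = ∑ a ∈ A, ∑ t ∈ Finset.Ico 1 n, (if a ≤ t then (v t - v (t + 1)) * g a else 0) :=
          Finset.sum_comm
      _ = ∑ a ∈ A, g a * (v a - v n) := by
          refine Finset.sum_congr rfl fun a ha => ?_
          have ha' := mem_Icc.1 (hA ha)
          rw [← Finset.sum_filter]
          have h2 : (Finset.Ico 1 n).filter (fun t => a ≤ t) = Finset.Ico a n := by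
            ext t
            simp only [mem_filter, mem_Ico]
            omega
          rw [h2, ← Finset.sum_mul]
          have h3 : ∑ t ∈ Finset.Ico a n, (v t - v (t + 1)) = v a - v n := by
            have h4 := Finset.sum_Ico_sub (fun t => v t) ha'.2
            have h5 : ∑ t ∈ Finset.Ico a n, (v t - v (t + 1)) = -∑ t ∈ Finset.Ico a n, (v (t + 1) - v t) := by
              rw [← Finset.sum_neg_distrib]
              refine Finset.sum_congr rfl fun t _ => by ring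
            rw [h5, h4]; ring
          rw [h3]; ring
  rw [h1, Finset.mul_sum, ← Finset.sum_add_distrib]
  refine Finset.sum_congr rfl fun a _ => by ring

end Pool.Agent.V11124.PW
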