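import Pool.Agent.V11124.PW.Sperner

set_option autoImplicit false

namespace Pool.Agent.V11124.PW

open Finset

/-- A weak form of Behrend's theorem for primitive sets, with a window. -/
theorem weak_behrend (ε : ℝ) (hε : 0 < ε) :
    ∃ M : ℕ, 1 ≤ M ∧ ∀ (A : Finset ℕ) (x y : ℕ), (∀ a ∈ A, x < a ∧ a ≤ y) →
      (∀ a ∈ A, ∀ b ∈ A, a ∣ b → a = b) →
      ∑ a ∈ A, (1 / (a : ℝ)) ≤ ε * ∑ m ∈ Finset.Ioc (x / M) (y * M), (1 / (m : ℝ)) := by
  classical
  obtain ⟨L, hL⟩ := choose_half_small (ε / 2) (by positivity)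
  obtain ⟨P, hPp, hPs⟩ := exists_primes (ε / 2 / 2 ^ L) (by positivity)
  set M : ℕ := ∏ p ∈ P, p with hM
  have hMpos : 1 ≤ M := Finset.prod_pos fun p hp => (hPp p hp).pos
  refine ⟨M, hMpos, fun A x y hA hprim => ?_⟩
  have hApos : ∀ a ∈ A, 0 < a := fun a ha => by have := (hA a ha).1; omega
  -- the products
  set pr : Finset ℕ → ℕ := fun E => ∏ p ∈ E, p with hpr
  have hprpos : ∀ E ⊆ P, 0 < pr E := fun E hE => Finset.prod_pos fun p hp => (hPp p (hE hp)).pos
  have hprM : ∀ E ⊆ P, pr E ∣ M := fun E hE => Finset.prod_dvd_prod_of_subset _ _ _ hE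
  have hfac : ∀ E ⊆ P, ∀ r, (pr E).factorization r = if r ∈ E then 1 else 0 := by
    intro E hE r
    rw [hpr]
    simp only
    rw [Nat.factorization_prod (fun p hp => (hPp p (hE hp)).ne_zero)]
    rw [Finset.sum_apply']
    by_cases hr : r ∈ E
    · rw [if_pos hr, Finset.sum_eq_single_of_mem r hr]
      · rw [(hPp r (hE hr)).factorization_self]
      · intro p hp hne
        rw [(hPp p (hE hp)).factorization]
        simp [hne]
    · rw [if_neg hr]
      refine Finset.sum_eq_zero fun p hp => ?_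
      rw [(hPp p (hE hp)).factorization]
      have : p ≠ r := by rintro rfl; exact hr hp
      simp [this]
  -- odd part set
  set Ea : ℕ → Finset ℕ := fun a => P.filter (fun p => Odd (a.factorization p)) with hEa
  have hEaP : ∀ a, Ea a ⊆ P := fun a => Finset.filter_subset _ _
  have hEdvd : ∀ a ∈ A, pr (Ea a) ∣ a := by
    intro a ha
    rw [← Nat.factorization_le_iff_dvd (hprpos _ (hEaP a)).ne' (hApos a ha).ne']
    intro r
    rw [hfac _ (hEaP a)]
    split_ifs with h
    · rw [hEa, mem_filter] at h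
      exact h.2.pos
    · exact Nat.zero_le _
  set q : ℕ → ℕ := fun a => a / pr (Ea a) with hq
  have hqa : ∀ a ∈ A, q a * pr (Ea a) = a := fun a ha => Nat.div_mul_cancel (hEdvd a ha)
  have hqpos : ∀ a ∈ A, 0 < q a := by
    intro a ha
    apply Nat.pos_of_ne_zero
    intro h0
    have := hqa a ha
    rw [h0, zero_mul] at this
    exact (hApos a ha).ne this
  have hqev : ∀ a ∈ A, ∀ p ∈ P, Even ((q a).factorization p) := by
    intro a ha p hp
    have h1 : a.factorization p = (q a).factorization p + (pr (Ea a)).factorization p := by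
      conv_lhs => rw [← hqa a ha]
      rw [Nat.factorization_mul (hqpos a ha).ne' (hprpos _ (hEaP a)).ne']
      rfl
    rw [hfac _ (hEaP a)] at h1
    split_ifs at h1 with h
    · rw [hEa, mem_filter] at h
      have h2 := h.2
      rw [h1] at h2
      rcases Nat.even_or_odd ((q a).factorization p) with h3 | h3
      · exact h3
      · exact absurd h2 (by rw [Nat.not_odd_iff_even]; exact h3.add_odd odd_one)
    · rw [hEa, mem_filter, not_and, Nat.not_odd_iff_even] at h
      have h2 := h hp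
      rw [h1, add_zero] at h2
      exact h2
  set Q := A.image q with hQ
  -- fibre estimate
  have hfib : ∀ c ∈ Q, ∑ a ∈ A.filter (fun a => q a = c), (1 / (a : ℝ))
      ≤ (1 / (c : ℝ)) * (ε * ∏ p ∈ P, (1 + 1 / (p : ℝ))) := by
    intro c hc
    have hcpos : 0 < c := by
      rw [hQ, mem_image] at hc
      obtain ⟨a, ha, rfl⟩ := hc
      exact hqpos a ha
    set S := A.filter (fun a => q a = c) with hS
    have hSq : ∀ a ∈ S, a = c * pr (Ea a) := by
      intro a ha
      rw [hS, mem_filter] at ha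
      rw [← ha.2, hqa a ha.1]
    have hinj : Set.InjOn Ea (S : Set ℕ) := by
      intro a ha b hb h
      rw [hSq a ha, hSq b hb, h]
    set 𝒜 := S.image Ea with h𝒜
    have hanti : IsAntichain (· ⊆ ·) (𝒜 : Set (Finset ℕ)) := by
      intro E hE F hF hne hle
      simp only [h𝒜, coe_image, Set.mem_image, SetLike.mem_coe] at hE hF
      obtain ⟨a, ha, rfl⟩ := hE
      obtain ⟨b, hb, rfl⟩ := hF
      apply hne
      have hdvd : a ∣ b := by
        rw [hSq a ha, hSq b hb]
        exact Nat.mul_dvd_mul_left _ (Finset.prod_dvd_prod_of_subset _ _ _ hle)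
      have haA : a ∈ A := (mem_filter.1 ha).1
      have hbA : b ∈ A := (mem_filter.1 hb).1
      rw [hprim a haA b hbA hdvd]
    have hsub : 𝒜 ⊆ P.powerset := by
      intro E hE
      simp only [h𝒜, mem_image] at hE
      obtain ⟨a, ha, rfl⟩ := hE
      exact mem_powerset.2 (hEaP a)
    have h1 := prod_sperner P (fun p => 1 / ((p : ℝ) + 1)) (fun p _ => by positivity)
      (fun p hp => by
        have h2 : (2 : ℝ) ≤ p := by exact_mod_cast (hPp p hp).two_le
        rw [div_le_div_iff₀ (by positivity) (by norm_num)]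
        linarith) 𝒜 hsub hanti L (ε / 2) (by positivity) hL
    have h2 : ε / 2 + 2 ^ L * ∏ p ∈ P, (1 - 1 / ((p : ℝ) + 1)) ≤ ε := by
      have h3 : 2 ^ L * ∏ p ∈ P, (1 - 1 / ((p : ℝ) + 1)) ≤ 2 ^ L * (ε / 2 / 2 ^ L) := by
        gcongr
      have h4 : (2 : ℝ) ^ L * (ε / 2 / 2 ^ L) = ε / 2 := by field_simp
      linarith
    have h3 : ∀ E ⊆ P, (∏ p ∈ E, (1 / ((p : ℝ) + 1))) * (∏ p ∈ P \ E, (1 - 1 / ((p : ℝ) + 1)))
        * (∏ p ∈ P, (1 + 1 / (p : ℝ))) = 1 / (pr E : ℝ) := by
      intro E hE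
      rw [← Finset.prod_sdiff hE (f := fun p : ℕ => 1 + 1 / (p : ℝ))]
      have h4 : (∏ p ∈ P \ E, (1 - 1 / ((p : ℝ) + 1))) * (∏ p ∈ P \ E, (1 + 1 / (p : ℝ))) = 1 := by
        rw [← Finset.prod_mul_distrib]
        refine Finset.prod_eq_one fun p hp => ?_
        have hp0 : (0 : ℝ) < p := by exact_mod_cast (hPp p (Finset.sdiff_subset hp)).pos
        field_simp
        ring
      have h5 : (∏ p ∈ E, (1 / ((p : ℝ) + 1))) * (∏ p ∈ E, (1 + 1 / (p : ℝ))) = 1 / (pr E : ℝ) := by
        rw [← Finset.prod_mul_distrib, hpr]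
        simp only
        rw [Nat.cast_prod, one_div, ← Finset.prod_inv_distrib]
        refine Finset.prod_congr rfl fun p hp => ?_
        have hp0 : (0 : ℝ) < p := by exact_mod_cast (hPp p (hE hp)).pos
        field_simp
      calc _ = ((∏ p ∈ P \ E, (1 - 1 / ((p : ℝ) + 1))) * (∏ p ∈ P \ E, (1 + 1 / (p : ℝ))))
            * ((∏ p ∈ E, (1 / ((p : ℝ) + 1))) * (∏ p ∈ E, (1 + 1 / (p : ℝ)))) := by ring
        _ = _ := by rw [h4, h5, one_mul]
    have h6 : ∑ a ∈ S, (1 / (a : ℝ)) = (1 / (c : ℝ)) * ∑ E ∈ 𝒜, 1 / (pr E : ℝ) := by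
      rw [h𝒜, Finset.sum_image hinj, Finset.mul_sum]
      refine Finset.sum_congr rfl fun a ha => ?_
      have h7 : (a : ℝ) = c * pr (Ea a) := by exact_mod_cast hSq a ha
      rw [h7]
      have : (0 : ℝ) < c := by exact_mod_cast hcpos
      have : (0 : ℝ) < pr (Ea a) := by exact_mod_cast hprpos _ (hEaP a)
      rw [one_div_mul_one_div]
    rw [h6]
    apply mul_le_mul_of_nonneg_left _ (by positivity)
    have h8 : ∑ E ∈ 𝒜, 1 / (pr E : ℝ) = (∑ E ∈ 𝒜, (∏ p ∈ E, (1 / ((p : ℝ) + 1))) *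
        (∏ p ∈ P \ E, (1 - 1 / ((p : ℝ) + 1)))) * (∏ p ∈ P, (1 + 1 / (p : ℝ))) := by
      rw [Finset.sum_mul]
      refine Finset.sum_congr rfl fun E hE => ?_
      rw [h3 E (mem_powerset.1 (hsub hE))]
    rw [h8]
    apply mul_le_mul_of_nonneg_right (h1.trans h2)
    exact Finset.prod_nonneg fun p _ => by positivity
  -- sum over Q
  have hsumQ : (∑ c ∈ Q, (1 / (c : ℝ))) * ∏ p ∈ P, (1 + 1 / (p : ℝ))
      ≤ ∑ m ∈ Finset.Ioc (x / M) (y * M), (1 / (m : ℝ)) := by
    rw [Finset.prod_one_add, Finset.sum_mul_sum, ← Finset.sum_product']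
    have hinj : Set.InjOn (fun z : ℕ × Finset ℕ => z.1 * pr z.2)
        ((Q ×ˢ P.powerset : Finset (ℕ × Finset ℕ)) : Set (ℕ × Finset ℕ)) := by
      rintro ⟨c, E⟩ h1 ⟨d, F⟩ h2 h
      simp only [coe_product, Set.mem_prod, SetLike.mem_coe, mem_powerset] at h1 h2 h
      obtain ⟨hc, hE⟩ := h1
      obtain ⟨hd, hF⟩ := h2
      rw [hQ, mem_image] at hc hd
      obtain ⟨a, ha, rfl⟩ := hc
      obtain ⟨b, hb, rfl⟩ := hd
      have hEF : E = F := by
        ext p
        by_cases hp : p ∈ P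
        · have h3 : (q a * pr E).factorization p = (q b * pr F).factorization p := by rw [h]
          rw [Nat.factorization_mul (hqpos a ha).ne' (hprpos _ hE).ne',
            Nat.factorization_mul (hqpos b hb).ne' (hprpos _ hF).ne'] at h3
          simp only [Finsupp.coe_add, Pi.add_apply] at h3
          rw [hfac _ hE, hfac _ hF] at h3
          obtain ⟨u, hu⟩ := hqev a ha p hp
          obtain ⟨v, hv⟩ := hqev b hb p hp
          constructor
          · intro h4
            by_contra h5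
            rw [if_pos h4, if_neg h5] at h3
            omega
          · intro h4
            by_contra h5
            rw [if_pos h4, if_neg h5] at h3
            omega
        · exact ⟨fun h4 => absurd (hE h4) hp, fun h4 => absurd (hF h4) hp⟩
      subst hEF
      have := Nat.eq_of_mul_eq_mul_right (hprpos _ hE) h
      rw [this]
    have himg : (Q ×ˢ P.powerset).image (fun z : ℕ × Finset ℕ => z.1 * pr z.2)
        ⊆ Finset.Ioc (x / M) (y * M) := by
      intro m hm
      simp only [mem_image, mem_product, mem_powerset] at hm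
      obtain ⟨⟨c, E⟩, ⟨hc, hE⟩, rfl⟩ := hm
      rw [hQ, mem_image] at hc
      obtain ⟨a, ha, rfl⟩ := hc
      simp only
      have h1 : q a * M ≥ a := by
        calc a = q a * pr (Ea a) := (hqa a ha).symm
          _ ≤ q a * M := Nat.mul_le_mul_left _ (Nat.le_of_dvd hMpos (hprM _ (hEaP a)))
      have h2 : q a ≤ a := Nat.div_le_self _ _
      have h3 := hA a ha
      rw [mem_Ioc]
      constructor
      · have h4 : x / M < q a := by
          rw [Nat.div_lt_iff_lt_mul hMpos]
          omega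
        exact h4.trans_le (Nat.le_mul_of_pos_right _ (hprpos _ hE))
      · exact Nat.mul_le_mul (h2.trans h3.2) (Nat.le_of_dvd hMpos (hprM _ hE))
    calc ∑ z ∈ Q ×ˢ P.powerset, (1 / (z.1 : ℝ)) * ∏ p ∈ z.2, (1 / (p : ℝ))
        = ∑ z ∈ Q ×ˢ P.powerset, 1 / ((z.1 * pr z.2 : ℕ) : ℝ) := by
          refine Finset.sum_congr rfl fun z _ => ?_
          rw [Nat.cast_mul, hpr]
          simp only
          rw [Nat.cast_prod, one_div, one_div, mul_inv, ← Finset.prod_inv_distrib]
          congr 1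
          refine Finset.prod_congr rfl fun p _ => by rw [one_div]
      _ = ∑ m ∈ (Q ×ˢ P.powerset).image (fun z : ℕ × Finset ℕ => z.1 * pr z.2), 1 / (m : ℝ) := by
          rw [Finset.sum_image hinj]
      _ ≤ _ := Finset.sum_le_sum_of_subset_of_nonneg himg fun _ _ _ => by positivity
  calc ∑ a ∈ A, (1 / (a : ℝ)) = ∑ c ∈ Q, ∑ a ∈ A.filter (fun a => q a = c), (1 / (a : ℝ)) := by
        rw [Finset.sum_fiberwise_of_maps_to (fun a ha => Finset.mem_image_of_mem q ha)]
    _ ≤ ∑ c ∈ Q, (1 / (c : ℝ)) * (ε * ∏ p ∈ P, (1 + 1 / (p : ℝ))) := Finset.sum_le_sum hfib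
    _ = ε * ((∑ c ∈ Q, (1 / (c : ℝ))) * ∏ p ∈ P, (1 + 1 / (p : ℝ))) := by
        rw [← Finset.sum_mul]; ring
    _ ≤ _ := by gcongr

end Pool.Agent.V11124.PW
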