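import Pool.Agent.V11124.PW.Scale
import Pool.Agent.V11124.PW.Behrend

set_option autoImplicit false

namespace Pool.Agent.V11124.PW

open Finset

theorem F_up (σ : ℝ) (u n : ℕ) (hu : 1 ≤ u) (hun : u ≤ n) :
    F σ u * (B σ u / B σ n) ≤ F σ n := by
  obtain ⟨A, hA, hprim, hF⟩ := exists_F σ u
  have h1 := le_F σ n A (hA.trans (Finset.Icc_subset_Icc_right hun)) hprim
  refine le_trans (le_of_eq ?_) h1
  have := B_pos σ u hu
  have h2 := B_pos σ n (hu.trans hun)
  rw [hF]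
  field_simp

theorem F_eventually (σ : ℝ) (h0 : 0 ≤ σ) (h1 : σ < 1) (κ : ℝ) (hκ : 0 < κ) :
    ∃ N : ℕ, 1 ≤ N ∧ ∀ t n : ℕ, N ≤ t → N ≤ n → F σ t ≤ F σ n + κ := by
  obtain ⟨t₀, ht₀, hsc⟩ := int_scale σ h0 h1 (κ / 3) (by positivity)
  have step : ∀ t, t₀ ≤ t → ∃ N, ∀ n, N ≤ n → F σ t ≤ F σ n + 2 * (κ / 3) := by
    intro t ht
    obtain ⟨K, hK⟩ := exists_nat_gt (3 / κ)
    refine ⟨(K + 1) * t, fun n hn => ?_⟩
    have htpos : 0 < t := by omega
    set k := n / t with hk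
    have hkK : K + 1 ≤ k := by rw [hk, Nat.le_div_iff_mul_le htpos]; exact hn
    have hkpos : 1 ≤ k := by omega
    have hkt : k * t ≤ n := Nat.div_mul_le_self n t
    have hnlt : n < k * t + t := by
      have := Nat.lt_div_mul_add htpos (a := n)
      rw [hk]; exact this
    have hktpos : 1 ≤ k * t := Nat.mul_pos hkpos htpos
    have hk0 : (0 : ℝ) < k := by exact_mod_cast hkpos
    have hkt0 : (0 : ℝ) < ((k * t : ℕ) : ℝ) := by exact_mod_cast hktpos
    have hB : B σ n ≤ (1 + 1 / k) * B σ (k * t) := by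
      have h2 : B σ n = B σ (k * t) + W σ (Finset.Ioc (k * t) n) := by
        unfold B W
        rw [← Finset.sum_union]
        · congr 1
          ext m
          simp only [mem_Icc, mem_union, mem_Ioc]
          omega
        · rw [Finset.disjoint_left]
          intro m h3 h4
          rw [mem_Icc] at h3
          rw [mem_Ioc] at h4
          omega
      have h3 : W σ (Finset.Ioc (k * t) n) ≤ t * ((k * t : ℕ) : ℝ) ^ (-σ) := by
        have h4 : ∀ m ∈ Finset.Ioc (k * t) n, (m : ℝ) ^ (-σ) ≤ ((k * t : ℕ) : ℝ) ^ (-σ) := by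
          intro m hm
          rw [mem_Ioc] at hm
          exact Real.rpow_le_rpow_of_nonpos hkt0 (by exact_mod_cast hm.1.le) (by linarith)
        have h5 := Finset.sum_le_sum h4
        rw [Finset.sum_const, Nat.card_Ioc, nsmul_eq_mul] at h5
        refine h5.trans ?_
        have h6 : ((n - k * t : ℕ) : ℝ) ≤ t := by exact_mod_cast (by omega : n - k * t ≤ t)
        have h7 : (0 : ℝ) ≤ ((k * t : ℕ) : ℝ) ^ (-σ) := Real.rpow_nonneg hkt0.le _
        gcongr
      have h4 := B_lower σ h0 (k * t) hktpos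
      have h5 : ((k * t : ℕ) : ℝ) ^ (1 - σ) = k * (t * ((k * t : ℕ) : ℝ) ^ (-σ)) := by
        rw [sub_eq_add_neg, Real.rpow_add hkt0, Real.rpow_one]
        push_cast; ring
      rw [h5] at h4
      have h6 : t * ((k * t : ℕ) : ℝ) ^ (-σ) ≤ 1 / k * B σ (k * t) := by
        rw [one_div, ← div_eq_inv_mul, le_div_iff₀ hk0]
        linarith
      linarith
    have h2 := F_up σ (k * t) n hktpos hkt
    have hBk := B_pos σ (k * t) hktpos
    have hBn := B_pos σ n (hktpos.trans hkt)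
    have h3 : 1 - 1 / k ≤ B σ (k * t) / B σ n := by
      rw [le_div_iff₀ hBn]
      by_cases hneg : 1 - 1 / (k : ℝ) ≤ 0
      · nlinarith
      · push Not at hneg
        calc (1 - 1 / (k : ℝ)) * B σ n ≤ (1 - 1 / (k : ℝ)) * ((1 + 1 / k) * B σ (k * t)) := by gcongr
          _ = (1 - (1 / (k : ℝ)) ^ 2) * B σ (k * t) := by ring
          _ ≤ 1 * B σ (k * t) := by
              gcongr
              have := sq_nonneg (1 / (k : ℝ))
              linarith
          _ = _ := one_mul _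
    have h4 : 1 / (k : ℝ) ≤ κ / 3 := by
      rw [div_le_iff₀ hk0]
      rw [div_lt_iff₀ hκ] at hK
      have : (K : ℝ) + 1 ≤ k := by exact_mod_cast hkK
      nlinarith
    have h5 := hsc t k ht hkpos
    have h6 : F σ (k * t) ≤ 1 := F_le_one _ _
    have h7 : 0 ≤ F σ (k * t) := F_nonneg _ _
    have h8 : F σ (k * t) * (1 - 1 / k) ≤ F σ n := le_trans (by gcongr) h2
    have h9 : F σ (k * t) * (1 / k) ≤ 1 * (κ / 3) := by
      apply mul_le_mul h6 h4 (by positivity) (by norm_num)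
    nlinarith
  have hbdd : BddAbove {x | ∃ t, t₀ ≤ t ∧ x = F σ t} :=
    ⟨1, by rintro x ⟨t, _, rfl⟩; exact F_le_one _ _⟩
  have hne : {x | ∃ t, t₀ ≤ t ∧ x = F σ t}.Nonempty := ⟨_, t₀, le_refl _, rfl⟩
  obtain ⟨x, ⟨T, hT, rfl⟩, hx⟩ := exists_lt_of_lt_csSup hne
    (show sSup {x | ∃ t, t₀ ≤ t ∧ x = F σ t} - κ / 3 < sSup {x | ∃ t, t₀ ≤ t ∧ x = F σ t} by linarith)
  obtain ⟨N, hN⟩ := step T hT
  refine ⟨max t₀ N, by omega, fun t n ht hn => ?_⟩
  have h2 : F σ t ≤ sSup {x | ∃ t, t₀ ≤ t ∧ x = F σ t} :=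
    le_csSup hbdd ⟨t, le_trans (le_max_left _ _) ht, rfl⟩
  have h3 := hN n (le_trans (le_max_right _ _) hn)
  linarith

theorem harm_upper (a b : ℕ) (ha : 1 ≤ a) (hab : a ≤ b) :
    ∑ m ∈ Finset.Ioc a b, (1 / (m : ℝ)) ≤ Real.log ((b : ℝ) / a) := by
  induction b, hab using Nat.le_induction with
  | base => 
    have : (a : ℝ) ≠ 0 := by exact_mod_cast (by omega : a ≠ 0)
    simp [this]
  | succ b hb ih =>
    rw [Finset.sum_Ioc_succ_top hb]
    have ha0 : (0 : ℝ) < a := by exact_mod_cast ha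
    have hb0 : (0 : ℝ) < b := by exact_mod_cast (by omega : 0 < b)
    have hb1 : (0 : ℝ) < ((b + 1 : ℕ) : ℝ) := by positivity
    have h1 : Real.log (((b + 1 : ℕ) : ℝ) / a) = Real.log ((b : ℝ) / a) + Real.log (((b + 1 : ℕ) : ℝ) / b) := by
      rw [← Real.log_mul (by positivity) (by positivity)]
      congr 1
      field_simp
    rw [h1]
    have h2 : 1 - (((b + 1 : ℕ) : ℝ) / b)⁻¹ ≤ Real.log (((b + 1 : ℕ) : ℝ) / b) :=
      Real.one_sub_inv_le_log_of_pos (by positivity)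
    have h3 : 1 - (((b + 1 : ℕ) : ℝ) / b)⁻¹ = 1 / ((b + 1 : ℕ) : ℝ) := by
      push_cast
      field_simp
      ring
    linarith

theorem harm_lower (a b : ℕ) (hab : a ≤ b) :
    Real.log (((b : ℝ) + 1) / (a + 1)) ≤ ∑ m ∈ Finset.Ioc a b, (1 / (m : ℝ)) := by
  induction b, hab using Nat.le_induction with
  | base => 
    have : (a : ℝ) + 1 ≠ 0 := by positivity
    simp [this]
  | succ b hb ih =>
    rw [Finset.sum_Ioc_succ_top hb]
    have h1 : Real.log ((((b + 1 : ℕ) : ℝ) + 1) / (a + 1)) = Real.log (((b : ℝ) + 1) / (a + 1))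
        + Real.log ((((b + 1 : ℕ) : ℝ) + 1) / ((b + 1 : ℕ) : ℝ)) := by
      rw [← Real.log_mul (by positivity) (by positivity)]
      congr 1
      push_cast
      field_simp
    rw [h1]
    have h2 := Real.log_le_sub_one_of_pos (show (0 : ℝ) < (((b + 1 : ℕ) : ℝ) + 1) / ((b + 1 : ℕ) : ℝ) by positivity)
    have h3 : (((b + 1 : ℕ) : ℝ) + 1) / ((b + 1 : ℕ) : ℝ) - 1 = 1 / ((b + 1 : ℕ) : ℝ) := by
      push_cast
      field_simp
      ring
    linarith

theorem low_scale (σ : ℝ) (h0 : 0 ≤ σ) (h1 : σ < 1) :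
    ∃ J N : ℕ, ∀ n, N ≤ n → ∀ A : Finset ℕ, A ⊆ Finset.Icc 1 n → Prim A →
      ∃ t₀, n ≤ 2 ^ J * t₀ ∧ t₀ ≤ n ∧ W σ (A.filter (· ≤ t₀)) ≤ (1 - σ) / 8 * B σ t₀ := by
  classical
  have hβ : 0 < 1 - σ := by linarith
  set c : ℝ := (1 - σ) / 8 with hc
  have hcpos : 0 < c := by positivity
  obtain ⟨M, hM, hWB⟩ := weak_behrend (c / 4) (by positivity)
  obtain ⟨I, hI⟩ : ∃ I : ℕ, ((1 / 2 : ℝ) ^ I) ^ (1 - σ) / (1 - σ) ≤ c / 2 := by
    have h2 : (0 : ℝ) < (1 / 2 : ℝ) ^ (1 - σ) := Real.rpow_pos_of_pos (by norm_num) _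
    have h3 : (1 / 2 : ℝ) ^ (1 - σ) < 1 := Real.rpow_lt_one (by norm_num) (by norm_num) hβ
    obtain ⟨I, hI⟩ := exists_pow_lt_of_lt_one (show 0 < c / 2 * (1 - σ) by positivity) h3
    refine ⟨I, ?_⟩
    rw [div_le_iff₀ hβ, ← Real.rpow_natCast, ← Real.rpow_mul (by norm_num), mul_comm (I : ℝ),
      Real.rpow_mul (by norm_num), Real.rpow_natCast]
    exact hI.le
  set J : ℕ := I + 4 + 2 * M with hJ
  refine ⟨J, 2 ^ (J + 1) + 2 * (2 ^ (J + I) * M), fun n hn A hA hprim => ?_⟩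
  by_contra hcon
  push Not at hcon
  have h2J : 0 < 2 ^ J := by positivity
  have hDpos : 0 < 2 ^ (J + I) * M := by positivity
  have hn1 : 1 ≤ n := by omega
  set T := (n + 2 ^ J - 1) / 2 ^ J with hT
  have hT1 : n ≤ 2 ^ J * T := by
    have h3 := Nat.lt_div_mul_add h2J (a := n + 2 ^ J - 1)
    rw [← hT, mul_comm] at h3
    omega
  have hT2 : 2 ^ J * T ≤ n + 2 ^ J - 1 := Nat.mul_div_le _ _
  have hT3 : 1 ≤ T := by
    rcases Nat.eq_zero_or_pos T with h | h
    · rw [h] at hT1; omega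
    · exact h
  have hTn : T ≤ n := by
    by_contra h3
    push Not at h3
    have h4 : 2 ^ J * (n + 1) ≤ 2 ^ J * T := Nat.mul_le_mul_left _ h3
    have h5 : 1 * n ≤ 2 ^ J * n := Nat.mul_le_mul_right _ h2J
    have : 2 ^ J * (n + 1) = 2 ^ J * n + 2 ^ J := by ring
    omega
  set x := n / 2 ^ (J + I) with hx
  set A' := A.filter (fun a => x < a) with hA'
  have hA'sub : A' ⊆ Finset.Icc 1 n := (Finset.filter_subset _ _).trans hA
  have hpart : ∀ t, T ≤ t → t ≤ n → c / 2 * B σ t ≤ W σ (A'.filter (· ≤ t)) := by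
    intro t ht1 ht2
    have htJ : n ≤ 2 ^ J * t := hT1.trans (Nat.mul_le_mul_left _ ht1)
    have h3 := hcon t htJ ht2
    have htpos : 1 ≤ t := hT3.trans ht1
    have ht0 : (0 : ℝ) < t := by exact_mod_cast htpos
    have h4 : W σ (A.filter (· ≤ t)) ≤ W σ (A'.filter (· ≤ t)) + B σ x := by
      have h5 : A.filter (· ≤ t) ⊆ A'.filter (· ≤ t) ∪ Finset.Icc 1 x := by
        intro a ha
        rw [mem_filter] at ha
        rw [mem_union, mem_filter, hA', mem_filter, mem_Icc]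
        have := mem_Icc.1 (hA ha.1)
        by_cases h6 : x < a
        · exact Or.inl ⟨⟨ha.1, h6⟩, ha.2⟩
        · exact Or.inr ⟨this.1, by omega⟩
      refine (W_mono σ h5).trans ?_
      unfold B W
      rw [← Finset.sum_union_inter]
      have : 0 ≤ ∑ a ∈ A'.filter (· ≤ t) ∩ Finset.Icc 1 x, (a : ℝ) ^ (-σ) :=
        Finset.sum_nonneg fun a _ => Real.rpow_nonneg (Nat.cast_nonneg a) _
      linarith
    have h5 : B σ x ≤ c / 2 * B σ t := by
      have h6 : (x : ℝ) ≤ (1 / 2 : ℝ) ^ I * t := by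
        have h7 : (x : ℝ) ≤ (n : ℝ) / ((2 ^ (J + I) : ℕ) : ℝ) := Nat.cast_div_le
        have h8 : (n : ℝ) ≤ 2 ^ J * t := by exact_mod_cast htJ
        refine h7.trans ?_
        rw [div_le_iff₀ (by positivity)]
        push_cast
        rw [pow_add, one_div, inv_pow]
        have h9 : ((2 : ℝ) ^ I)⁻¹ * t * (2 ^ J * 2 ^ I) = 2 ^ J * t := by field_simp
        rw [h9]
        exact h8
      calc B σ x ≤ (x : ℝ) ^ (1 - σ) / (1 - σ) := B_upper σ h0 h1 x
        _ ≤ ((1 / 2 : ℝ) ^ I * t) ^ (1 - σ) / (1 - σ) := by gcongr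
        _ = ((1 / 2 : ℝ) ^ I) ^ (1 - σ) / (1 - σ) * (t : ℝ) ^ (1 - σ) := by
            rw [Real.mul_rpow (by positivity) ht0.le]; ring
        _ ≤ c / 2 * B σ t := by
            have := B_lower σ h0 t htpos
            gcongr
    linarith
  -- lower bound by Abel summation
  set v : ℕ → ℝ := fun t => (t : ℝ) ^ (-(1 - σ)) with hv
  have hvpos : ∀ t, 0 ≤ v t := fun t => Real.rpow_nonneg (Nat.cast_nonneg t) _
  have hvdec : ∀ t, 1 ≤ t → 0 ≤ v t - v (t + 1) := by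
    intro t ht
    have : v (t + 1) ≤ v t := by
      apply Real.rpow_le_rpow_of_nonpos (by exact_mod_cast ht) (by push_cast; linarith) (by linarith)
    linarith
  have hgv : ∀ X : Finset ℕ, X ⊆ Finset.Icc 1 n →
      ∑ a ∈ X, (a : ℝ) ^ (-σ) * v a = ∑ a ∈ X, (1 / (a : ℝ)) := by
    intro X hX
    refine Finset.sum_congr rfl fun a ha => ?_
    have ha0 : (0 : ℝ) < a := by exact_mod_cast (mem_Icc.1 (hX ha)).1
    rw [hv]
    simp only
    rw [← Real.rpow_add ha0]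
    have : -σ + -(1 - σ) = (-1 : ℝ) := by ring
    rw [this, Real.rpow_neg_one, one_div]
  have hlow : c / 2 * ∑ m ∈ Finset.Ioc T n, (1 / (m : ℝ)) ≤ ∑ a ∈ A', (1 / (a : ℝ)) := by
    have e1 := abel (fun a => (a : ℝ) ^ (-σ)) v n A' hA'sub
    have e2 := abel (fun a => (a : ℝ) ^ (-σ)) v n (Finset.Icc 1 n) (Finset.Subset.refl _)
    have e3 := abel (fun a => (a : ℝ) ^ (-σ)) v T (Finset.Icc 1 T) (Finset.Subset.refl _)
    rw [hgv A' hA'sub] at e1
    rw [hgv _ (Finset.Subset.refl _)] at e2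
    rw [hgv _ (Finset.Icc_subset_Icc_right hTn)] at e3
    have f2 : ∀ N t : ℕ, t ∈ Finset.Ico 1 N → ∑ a ∈ (Finset.Icc 1 N).filter (· ≤ t), (a : ℝ) ^ (-σ) = B σ t := by
      intro N t ht
      rw [mem_Ico] at ht
      unfold B W
      congr 1
      ext a
      simp only [mem_filter, mem_Icc]
      omega
    have g2 : ∑ m ∈ Finset.Icc 1 n, (1 / (m : ℝ)) = v n * B σ n +
        ∑ t ∈ Finset.Ico 1 n, (v t - v (t + 1)) * B σ t := by
      rw [e2]
      congr 1
      refine Finset.sum_congr rfl fun t ht => ?_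
      rw [f2 n t ht]
    have g3 : ∑ m ∈ Finset.Icc 1 T, (1 / (m : ℝ)) = v T * B σ T +
        ∑ t ∈ Finset.Ico 1 T, (v t - v (t + 1)) * B σ t := by
      rw [e3]
      congr 1
      refine Finset.sum_congr rfl fun t ht => ?_
      rw [f2 T t ht]
    have g4 : ∑ m ∈ Finset.Icc 1 n, (1 / (m : ℝ)) = ∑ m ∈ Finset.Icc 1 T, (1 / (m : ℝ)) +
        ∑ m ∈ Finset.Ioc T n, (1 / (m : ℝ)) := by
      rw [← Finset.sum_union]
      · congr 1
        ext m
        simp only [mem_Icc, mem_union, mem_Ioc]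
        omega
      · rw [Finset.disjoint_left]
        intro m h3 h4
        rw [mem_Icc] at h3
        rw [mem_Ioc] at h4
        omega
    have g5 : ∑ t ∈ Finset.Ico 1 n, (v t - v (t + 1)) * B σ t =
        ∑ t ∈ Finset.Ico 1 T, (v t - v (t + 1)) * B σ t + ∑ t ∈ Finset.Ico T n, (v t - v (t + 1)) * B σ t :=
      (Finset.sum_Ico_consecutive _ hT3 hTn).symm
    have g6 : ∑ m ∈ Finset.Ioc T n, (1 / (m : ℝ)) ≤ v n * B σ n +
        ∑ t ∈ Finset.Ico T n, (v t - v (t + 1)) * B σ t := by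
      have : 0 ≤ v T * B σ T := mul_nonneg (hvpos _) (B_nonneg _ _)
      linarith
    have g7 : ∑ t ∈ Finset.Ico T n, (v t - v (t + 1)) * (c / 2 * B σ t) ≤
        ∑ t ∈ Finset.Ico 1 n, (v t - v (t + 1)) * ∑ a ∈ A'.filter (· ≤ t), (a : ℝ) ^ (-σ) := by
      calc ∑ t ∈ Finset.Ico T n, (v t - v (t + 1)) * (c / 2 * B σ t)
          ≤ ∑ t ∈ Finset.Ico T n, (v t - v (t + 1)) * ∑ a ∈ A'.filter (· ≤ t), (a : ℝ) ^ (-σ) := by
            refine Finset.sum_le_sum fun t ht => ?_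
            rw [mem_Ico] at ht
            exact mul_le_mul_of_nonneg_left (hpart t ht.1 ht.2.le) (hvdec t (hT3.trans ht.1))
        _ ≤ _ := by
            refine Finset.sum_le_sum_of_subset_of_nonneg (Finset.Ico_subset_Ico_left hT3) fun t ht _ => ?_
            rw [mem_Ico] at ht
            exact mul_nonneg (hvdec t ht.1) (W_nonneg _ _)
    have g8 : v n * (c / 2 * B σ n) ≤ v n * ∑ a ∈ A', (a : ℝ) ^ (-σ) := by
      apply mul_le_mul_of_nonneg_left _ (hvpos n)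
      refine (hpart n hTn le_rfl).trans ?_
      exact W_mono σ (Finset.filter_subset _ _)
    have g9 : ∑ t ∈ Finset.Ico T n, (v t - v (t + 1)) * (c / 2 * B σ t)
        = c / 2 * ∑ t ∈ Finset.Ico T n, (v t - v (t + 1)) * B σ t := by
      rw [Finset.mul_sum]
      refine Finset.sum_congr rfl fun t _ => by ring
    rw [e1]
    have g10 := mul_le_mul_of_nonneg_left g6 (show 0 ≤ c / 2 by positivity)
    linarith
  have hup := hWB A' x n (fun a ha => by
    rw [hA', mem_filter] at ha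
    exact ⟨ha.2, (mem_Icc.1 (hA ha.1)).2⟩) (hprim.subset (Finset.filter_subset _ _))
  -- numbers
  have hxM : x / M = n / (2 ^ (J + I) * M) := by rw [hx, Nat.div_div_eq_div_mul]
  set D := 2 ^ (J + I) * M with hD
  have hnD : n / D ≥ 1 := by
    apply (Nat.le_div_iff_mul_le hDpos).2
    omega
  have hnD2 : n ≤ 2 * D * (n / D) := by
    have h3 := Nat.lt_div_mul_add hDpos (a := n)
    have h4 : D * 1 ≤ D * (n / D) := Nat.mul_le_mul_left _ hnD
    have h5 : n / D * D = D * (n / D) := mul_comm _ _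
    have h6 : 2 * D * (n / D) = 2 * (D * (n / D)) := by ring
    omega
  have hn0 : (0 : ℝ) < n := by exact_mod_cast hn1
  have hM0 : (0 : ℝ) < M := by exact_mod_cast hM
  have h3 : ∑ m ∈ Finset.Ioc (x / M) (n * M), (1 / (m : ℝ)) ≤ Real.log (((n * M : ℕ) : ℝ) / ((x / M : ℕ) : ℝ)) := by
    apply harm_upper
    · rw [hxM]; exact hnD
    · rw [hxM]
      exact (Nat.div_le_self _ _).trans (Nat.le_mul_of_pos_right _ hM)
  have h4 : Real.log (((n * M : ℕ) : ℝ) / ((x / M : ℕ) : ℝ)) ≤ (J + I + 1 + 2 * M) * Real.log 2 := by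
    have h5 : ((n * M : ℕ) : ℝ) / ((x / M : ℕ) : ℝ) ≤ 2 ^ (J + I + 1 + 2 * M) := by
      rw [hxM]
      have h6 : (0 : ℝ) < ((n / D : ℕ) : ℝ) := by exact_mod_cast hnD
      rw [div_le_iff₀ h6]
      have h7 : (n : ℝ) ≤ 2 * D * ((n / D : ℕ) : ℝ) := by exact_mod_cast hnD2
      have h8 : (M : ℝ) ≤ 2 ^ M := by exact_mod_cast Nat.lt_two_pow_self.le
      have h9 : (D : ℝ) = 2 ^ (J + I) * M := by rw [hD]; push_cast; ring
      calc ((n * M : ℕ) : ℝ) = n * M := by push_cast; ring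
        _ ≤ (2 * D * ((n / D : ℕ) : ℝ)) * M := by gcongr
        _ = (2 * 2 ^ (J + I) * (M * M)) * ((n / D : ℕ) : ℝ) := by rw [h9]; ring
        _ ≤ (2 * 2 ^ (J + I) * (2 ^ M * 2 ^ M)) * ((n / D : ℕ) : ℝ) := by gcongr
        _ = 2 ^ (J + I + 1 + 2 * M) * ((n / D : ℕ) : ℝ) := by
            ring
    have h6 : (0 : ℝ) < ((n * M : ℕ) : ℝ) / ((x / M : ℕ) : ℝ) := by
      rw [hxM]
      have h6 : (0 : ℝ) < ((n / D : ℕ) : ℝ) := by exact_mod_cast hnD
      have : (0 : ℝ) < ((n * M : ℕ) : ℝ) := by exact_mod_cast Nat.mul_pos hn1 hM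
      positivity
    have h7 := Real.log_le_log h6 h5
    rw [Real.log_pow] at h7
    push_cast at h7
    push_cast
    exact h7
  have h5 := harm_lower T n hTn
  have h6 : (J - 1 : ℝ) * Real.log 2 ≤ Real.log (((n : ℝ) + 1) / (T + 1)) := by
    have h7 : (2 : ℝ) ^ (J - 1) ≤ ((n : ℝ) + 1) / (T + 1) := by
      rw [le_div_iff₀ (by positivity)]
      have h8 : 2 ^ J * (T + 1) ≤ 2 * n := by
        have : 2 ^ J * (T + 1) = 2 ^ J * T + 2 ^ J := by ring
        have h9 : 2 ^ (J + 1) = 2 * 2 ^ J := by ring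
        omega
      have h9 : (2 : ℝ) ^ J * (T + 1) ≤ 2 * n := by exact_mod_cast h8
      have h10 : (2 : ℝ) ^ J = 2 * 2 ^ (J - 1) := by
        rw [← pow_succ']
        congr 1
        omega
      rw [h10] at h9
      linarith
    have h8 := Real.log_le_log (by positivity) h7
    rw [Real.log_pow] at h8
    have h9 : ((J - 1 : ℕ) : ℝ) = (J : ℝ) - 1 := by
      rw [Nat.cast_sub (by omega)]; simp
    rw [h9] at h8
    exact h8
  have hlog : 0 < Real.log 2 := Real.log_pos (by norm_num)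
  have h7 : c / 2 * ((J - 1 : ℝ) * Real.log 2) ≤ c / 4 * ((J + I + 1 + 2 * M) * Real.log 2) := by
    calc c / 2 * ((J - 1 : ℝ) * Real.log 2) ≤ c / 2 * ∑ m ∈ Finset.Ioc T n, (1 / (m : ℝ)) := by
          apply mul_le_mul_of_nonneg_left (h6.trans h5) (by positivity)
      _ ≤ ∑ a ∈ A', (1 / (a : ℝ)) := hlow
      _ ≤ c / 4 * ∑ m ∈ Finset.Ioc (x / M) (n * M), (1 / (m : ℝ)) := hup
      _ ≤ _ := by
          apply mul_le_mul_of_nonneg_left (h3.trans h4) (by positivity)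
  have h8 : (J : ℝ) = I + 4 + 2 * M := by rw [hJ]; push_cast; ring
  have hcl : 0 < c * Real.log 2 := by positivity
  rw [h8] at h7
  nlinarith

end Pool.Agent.V11124.PW
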