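import Pool.Agent.V11124.PW.Low

set_option autoImplicit false

namespace Pool.Agent.V11124.PW

open Finset

theorem B_double (σ : ℝ) (h0 : 0 ≤ σ) (s t : ℕ) (h : t ≤ 2 * s) : B σ t ≤ 2 * B σ s := by
  have h1 : ∀ s : ℕ, B σ (2 * s) ≤ 2 * B σ s := by
    intro s
    induction s with
    | zero => simp [B, W]
    | succ s ih =>
      have e1 : 2 * (s + 1) = 2 * s + 1 + 1 := by ring
      rw [e1, B_succ, B_succ, B_succ]
      have hs1 : (0 : ℝ) < ((s + 1 : ℕ) : ℝ) := by positivity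
      have h2 : ((2 * s + 1 : ℕ) : ℝ) ^ (-σ) ≤ ((s + 1 : ℕ) : ℝ) ^ (-σ) :=
        Real.rpow_le_rpow_of_nonpos hs1 (by exact_mod_cast (by omega : s + 1 ≤ 2 * s + 1)) (by linarith)
      have h3 : ((2 * s + 1 + 1 : ℕ) : ℝ) ^ (-σ) ≤ ((s + 1 : ℕ) : ℝ) ^ (-σ) :=
        Real.rpow_le_rpow_of_nonpos hs1 (by exact_mod_cast (by omega : s + 1 ≤ 2 * s + 1 + 1)) (by linarith)
      linarith
  exact (B_mono σ h).trans (h1 s)

theorem case_one (σ : ℝ) (h0 : 0 ≤ σ) (h1 : σ < 1) :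
    ∃ n₀ : ℕ, ∀ n, n₀ < n → F 1 n < F σ n := by
  have hβ : 0 < 1 - σ := by linarith
  obtain ⟨M, hM, hWB⟩ := weak_behrend ((1 - σ) / 8) (by positivity)
  obtain ⟨N, hN⟩ := exists_nat_gt (Real.exp (1 + Real.log M))
  refine ⟨N, fun n hn => ?_⟩
  have hn1 : 1 ≤ n := by omega
  have hn0 : (0 : ℝ) < n := by exact_mod_cast hn1
  have hM0 : (0 : ℝ) < M := by exact_mod_cast hM
  have hlog : 1 + Real.log M ≤ Real.log n := by
    rw [Real.le_log_iff_exp_le hn0]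
    have : (N : ℝ) ≤ n := by exact_mod_cast hn.le
    linarith
  have hlogM : 0 ≤ Real.log M := Real.log_nonneg (by exact_mod_cast hM)
  obtain ⟨A, hA, hprim, hF⟩ := exists_F 1 n
  have hWA : W 1 A = ∑ a ∈ A, (1 / (a : ℝ)) := by
    unfold W
    refine Finset.sum_congr rfl fun a _ => ?_
    rw [Real.rpow_neg_one, one_div]
  have hBn : Real.log n ≤ B 1 n := by
    have h2 := harm_lower 0 n (Nat.zero_le _)
    have h3 : ∑ m ∈ Finset.Ioc 0 n, (1 / (m : ℝ)) = B 1 n := by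
      unfold B W
      refine Finset.sum_congr rfl fun a _ => ?_
      rw [Real.rpow_neg_one, one_div]
    rw [h3] at h2
    refine le_trans ?_ h2
    apply Real.log_le_log hn0
    simp
  have h2 := hWB A 0 n (fun a ha => by
    have := mem_Icc.1 (hA ha); omega) hprim
  have h3 : ∑ m ∈ Finset.Ioc (0 / M) (n * M), (1 / (m : ℝ)) ≤ 1 + (Real.log n + Real.log M) := by
    have h4 : 1 ≤ n * M := Nat.mul_pos hn1 hM
    have h5 := harm_upper 1 (n * M) le_rfl h4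
    rw [Nat.zero_div]
    have h6 : ∑ m ∈ Finset.Ioc 0 (n * M), (1 / (m : ℝ)) = 1 + ∑ m ∈ Finset.Ioc 1 (n * M), (1 / (m : ℝ)) := by
      have h7 : Finset.Ioc 0 (n * M) = insert 1 (Finset.Ioc 1 (n * M)) := by
        ext m
        simp only [mem_Ioc, mem_insert]
        omega
      rw [h7, Finset.sum_insert (by simp)]
      simp
    rw [h6]
    have h8 : Real.log (((n * M : ℕ) : ℝ) / ((1 : ℕ) : ℝ)) = Real.log n + Real.log M := by
      rw [Nat.cast_one, div_one, Nat.cast_mul, Real.log_mul hn0.ne' hM0.ne']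
    linarith
  have hlogn : 0 < Real.log n := by linarith
  have h4 : F 1 n ≤ (1 - σ) / 4 := by
    rw [hF, div_le_iff₀ (by linarith), hWA]
    calc ∑ a ∈ A, (1 / (a : ℝ)) ≤ (1 - σ) / 8 * (1 + (Real.log n + Real.log M)) :=
          h2.trans (mul_le_mul_of_nonneg_left h3 (by positivity))
      _ ≤ (1 - σ) / 8 * (2 * Real.log n) := by
          apply mul_le_mul_of_nonneg_left _ (by positivity)
          linarith
      _ = (1 - σ) / 4 * Real.log n := by ring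
      _ ≤ (1 - σ) / 4 * B 1 n := by gcongr
  have h5 := F_lower σ h0 h1 n hn1
  linarith

theorem case_lt (σ τ : ℝ) (h0 : 0 ≤ σ) (hστ : σ < τ) (hτ : τ < 1) :
    ∃ n₀ : ℕ, ∀ n, n₀ < n → F τ n < F σ n := by
  classical
  have h1 : σ < 1 := hστ.trans hτ
  have hβ : 0 < 1 - σ := by linarith
  have hγ : 0 < 1 - τ := by linarith
  obtain ⟨J, N₁, hlow⟩ := low_scale σ h0 h1
  set δ := τ - σ with hδ
  have hδ0 : 0 < δ := by linarith
  set c₁ : ℝ := (1 / 2) ^ (1 - σ) * ((3 / 2) ^ δ - 1) * ((1 / 2 ^ J) ^ (1 - τ) * (1 - τ)) with hc₁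
  have h32 : (1 : ℝ) < (3 / 2) ^ δ := Real.one_lt_rpow (by norm_num) hδ0
  have hc₁0 : 0 < c₁ := by
    have a1 : (0 : ℝ) < (1 / 2) ^ (1 - σ) := Real.rpow_pos_of_pos (by norm_num) _
    have a2 : (0 : ℝ) < (1 / 2 ^ J) ^ (1 - τ) := Real.rpow_pos_of_pos (by positivity) _
    have a3 : (0 : ℝ) < (3 / 2) ^ δ - 1 := by linarith
    positivity
  obtain ⟨N, hN1, hFe⟩ := F_eventually σ h0 h1 ((1 - σ) * c₁ / 16) (by positivity)
  have hT : Filter.Tendsto (fun t : ℕ => (t : ℝ) ^ (1 - τ)) Filter.atTop Filter.atTop :=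
    (tendsto_rpow_atTop hγ).comp tendsto_natCast_atTop_atTop
  obtain ⟨N₂, hN₂⟩ := Filter.eventually_atTop.1
    (hT.eventually_ge_atTop (B τ N / ((1 - σ) * c₁ / 16)))
  refine ⟨N₁ + N₂ + N + 2 ^ (J + 1) * N + 3 * 2 ^ J, fun n hn => ?_⟩
  have h2J : 0 < 2 ^ J := by positivity
  have hn1 : 1 ≤ n := by omega
  have hn0 : (0 : ℝ) < n := by exact_mod_cast hn1
  obtain ⟨A, hA, hprim, hF⟩ := exists_F τ n
  obtain ⟨t₀, ht₀1, ht₀n, ht₀⟩ := hlow n (by omega) A hA hprim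
  have ht₀3 : 3 ≤ t₀ := by
    by_contra h
    push Not at h
    have h2 : 2 ^ J * t₀ ≤ 2 ^ J * 2 := Nat.mul_le_mul_left _ (by omega)
    omega
  set t₁ := (t₀ + 1) / 2 with ht₁
  have ht₁a : t₀ ≤ 2 * t₁ := by omega
  have ht₁b : 2 * t₁ ≤ t₀ + 1 := by omega
  have ht₁N : N ≤ t₁ := by
    by_contra h
    push Not at h
    have h2 : 2 ^ J * t₀ ≤ 2 ^ J * (2 * N) := Nat.mul_le_mul_left _ (by omega)
    have h3 : 2 ^ J * (2 * N) = 2 ^ (J + 1) * N := by ring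
    omega
  have ht₁t₀ : t₁ ≤ t₀ := by omega
  have ht₁1 : 1 ≤ t₁ := hN1.trans ht₁N
  set Φ := F σ n + (1 - σ) * c₁ / 16 with hΦ
  have hFlow := F_lower σ h0 h1 n hn1
  have hΦ0 : (1 - σ) / 2 ≤ Φ := by
    have : 0 ≤ (1 - σ) * c₁ / 16 := by positivity
    linarith
  set X : ℕ → ℝ := fun t => ∑ a ∈ A.filter (· ≤ t), (a : ℝ) ^ (-σ) with hX
  set v : ℕ → ℝ := fun t => (t : ℝ) ^ (-δ) with hv
  have hvpos : ∀ t, 0 ≤ v t := fun t => Real.rpow_nonneg (Nat.cast_nonneg t) _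
  have hvdec : ∀ t, 1 ≤ t → 0 ≤ v t - v (t + 1) := by
    intro t ht
    have : v (t + 1) ≤ v t := by
      apply Real.rpow_le_rpow_of_nonpos (by exact_mod_cast ht) (by push_cast; linarith) (by linarith)
    linarith
  have hgv : ∀ m : ℕ, ∀ Y : Finset ℕ, Y ⊆ Finset.Icc 1 m →
      ∑ a ∈ Y, (a : ℝ) ^ (-σ) * v a = W τ Y := by
    intro m Y hY
    refine Finset.sum_congr rfl fun a ha => ?_
    have ha0 : (0 : ℝ) < a := by exact_mod_cast (mem_Icc.1 (hY ha)).1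
    rw [hv]
    simp only
    rw [← Real.rpow_add ha0]
    congr 1
    rw [hδ]; ring
  have f2 : ∀ N t : ℕ, t ∈ Finset.Ico 1 N → ∑ a ∈ (Finset.Icc 1 N).filter (· ≤ t), (a : ℝ) ^ (-σ) = B σ t := by
    intro N t ht
    rw [mem_Ico] at ht
    unfold B W
    congr 1
    ext a
    simp only [mem_filter, mem_Icc]
    omega
  have hab : ∀ m : ℕ, B τ m = v m * B σ m + ∑ t ∈ Finset.Ico 1 m, (v t - v (t + 1)) * B σ t := by
    intro m
    have e := abel (fun a => (a : ℝ) ^ (-σ)) v m (Finset.Icc 1 m) (Finset.Subset.refl _)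
    rw [hgv m _ (Finset.Subset.refl _)] at e
    have e' : B τ m = v m * B σ m + ∑ t ∈ Finset.Ico 1 m, (v t - v (t + 1)) *
        ∑ a ∈ (Finset.Icc 1 m).filter (· ≤ t), (a : ℝ) ^ (-σ) := e
    rw [e']
    congr 1
    refine Finset.sum_congr rfl fun t ht => ?_
    rw [f2 m t ht]
  have hWA : W τ A = v n * W σ A + ∑ t ∈ Finset.Ico 1 n, (v t - v (t + 1)) * X t := by
    have e := abel (fun a => (a : ℝ) ^ (-σ)) v n A hA
    rw [hgv n A hA] at e
    exact e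
  -- bounds for X
  have hXB : ∀ t, X t ≤ B σ t := by
    intro t
    apply W_mono σ
    intro a ha
    rw [mem_filter] at ha
    rw [mem_Icc]
    exact ⟨(mem_Icc.1 (hA ha.1)).1, ha.2⟩
  have hXF : ∀ t, 1 ≤ t → X t ≤ F σ t * B σ t := by
    intro t ht
    have h2 := le_F σ t (A.filter (· ≤ t)) (by
      intro a ha
      rw [mem_filter] at ha
      rw [mem_Icc]
      exact ⟨(mem_Icc.1 (hA ha.1)).1, ha.2⟩) (hprim.subset (Finset.filter_subset _ _))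
    rwa [div_le_iff₀ (B_pos σ t ht)] at h2
  have hXbig : ∀ t, N ≤ t → X t ≤ Φ * B σ t := by
    intro t ht
    refine (hXF t (hN1.trans ht)).trans ?_
    exact mul_le_mul_of_nonneg_right (hFe t n ht (by omega)) (B_nonneg _ _)
  have hXmid : ∀ t, t₁ ≤ t → t < t₀ → X t ≤ Φ * B σ t - (1 - σ) / 4 * B σ t := by
    intro t ht1 ht2
    have h2 : X t ≤ X t₀ := by
      apply W_mono σ
      intro a ha
      rw [mem_filter] at ha ⊢
      exact ⟨ha.1, by omega⟩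
    have h3 : X t₀ ≤ (1 - σ) / 8 * B σ t₀ := ht₀
    have h4 := B_double σ h0 t t₀ (by omega)
    have h5 : (1 - σ) / 8 * B σ t₀ ≤ (1 - σ) / 8 * (2 * B σ t) := by gcongr
    have h6 : 0 ≤ B σ t := B_nonneg _ _
    have h7 : (1 - σ) / 2 * B σ t ≤ Φ * B σ t := by gcongr
    linarith
  -- total estimate
  have hE0 : ∑ t ∈ Finset.Ico 1 n, (v t - v (t + 1)) * X t ≤
      Φ * ∑ t ∈ Finset.Ico 1 n, (v t - v (t + 1)) * B σ t
      + ∑ t ∈ Finset.Ico 1 N, (v t - v (t + 1)) * B σ t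
      - (1 - σ) / 4 * ∑ t ∈ Finset.Ico t₁ t₀, (v t - v (t + 1)) * B σ t := by
    have hnN : N ≤ n := by omega
    have s1 : ∑ t ∈ Finset.Ico 1 N, (v t - v (t + 1)) * B σ t
        = ∑ t ∈ Finset.Ico 1 n, (if t < N then (v t - v (t + 1)) * B σ t else 0) := by
      rw [← Finset.sum_filter]
      congr 1
      ext t
      simp only [mem_filter, mem_Ico]
      omega
    have s2 : ∑ t ∈ Finset.Ico t₁ t₀, (v t - v (t + 1)) * B σ t
        = ∑ t ∈ Finset.Ico 1 n, (if t₁ ≤ t ∧ t < t₀ then (v t - v (t + 1)) * B σ t else 0) := by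
      rw [← Finset.sum_filter]
      congr 1
      ext t
      simp only [mem_filter, mem_Ico]
      omega
    rw [s1, s2, Finset.mul_sum, Finset.mul_sum, ← Finset.sum_add_distrib, ← Finset.sum_sub_distrib]
    refine Finset.sum_le_sum fun t ht => ?_
    rw [mem_Ico] at ht
    have hw := hvdec t ht.1
    by_cases c1 : t < N
    · rw [if_pos c1, if_neg (by omega)]
      have h2 : 0 ≤ Φ * ((v t - v (t + 1)) * B σ t) := by
        have := B_nonneg σ t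
        have : 0 ≤ Φ := by linarith
        positivity
      have h3 := mul_le_mul_of_nonneg_left (hXB t) hw
      linarith
    · rw [if_neg c1]
      by_cases c2 : t₁ ≤ t ∧ t < t₀
      · rw [if_pos c2]
        have h3 := mul_le_mul_of_nonneg_left (hXmid t c2.1 c2.2) hw
        linarith
      · rw [if_neg c2]
        have h3 := mul_le_mul_of_nonneg_left (hXbig t (by omega)) hw
        linarith
  have hWσA : W σ A ≤ Φ * B σ n := by
    have h2 := hXbig n (by omega)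
    have h3 : X n = W σ A := by
      show ∑ a ∈ A.filter (· ≤ n), (a : ℝ) ^ (-σ) = ∑ a ∈ A, (a : ℝ) ^ (-σ)
      rw [Finset.filter_true_of_mem fun a ha => (mem_Icc.1 (hA ha)).2]
    rw [← h3]; exact h2
  have hE1 : ∑ t ∈ Finset.Ico 1 N, (v t - v (t + 1)) * B σ t ≤ B τ N := by
    rw [hab N]
    have : 0 ≤ v N * B σ N := mul_nonneg (hvpos _) (B_nonneg _ _)
    linarith
  have hE2 : c₁ * B τ n ≤ ∑ t ∈ Finset.Ico t₁ t₀, (v t - v (t + 1)) * B σ t := by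
    have g1 : B σ t₁ * (v t₁ - v t₀) ≤ ∑ t ∈ Finset.Ico t₁ t₀, (v t - v (t + 1)) * B σ t := by
      have g2 : ∑ t ∈ Finset.Ico t₁ t₀, (v t - v (t + 1)) = v t₁ - v t₀ := by
        have h4 := Finset.sum_Ico_sub (fun t => v t) ht₁t₀
        have h5 : ∑ t ∈ Finset.Ico t₁ t₀, (v t - v (t + 1)) = -∑ t ∈ Finset.Ico t₁ t₀, (v (t + 1) - v t) := by
          rw [← Finset.sum_neg_distrib]
          refine Finset.sum_congr rfl fun t _ => by ring
        rw [h5, h4]; ring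
      rw [← g2, Finset.mul_sum]
      refine Finset.sum_le_sum fun t ht => ?_
      rw [mem_Ico] at ht
      rw [mul_comm]
      exact mul_le_mul_of_nonneg_left (B_mono σ ht.1) (hvdec t (ht₁1.trans ht.1))
    refine le_trans ?_ g1
    have ht₀0 : (0 : ℝ) < t₀ := by exact_mod_cast (by omega : 0 < t₀)
    have ht₁0 : (0 : ℝ) < t₁ := by exact_mod_cast ht₁1
    have g3 : ((3 / 2 : ℝ) ^ δ - 1) * (t₀ : ℝ) ^ (-δ) ≤ v t₁ - v t₀ := by
      have g4 : (3 / 2 : ℝ) ^ δ * (t₀ : ℝ) ^ (-δ) ≤ v t₁ := by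
        have g5 : (t₁ : ℝ) ≤ (3 / 2 : ℝ)⁻¹ * t₀ := by
          have : (2 : ℝ) * t₁ ≤ t₀ + 1 := by exact_mod_cast ht₁b
          have h3 : (3 : ℝ) ≤ t₀ := by exact_mod_cast ht₀3
          norm_num
          linarith
        have g6 : ((3 / 2 : ℝ)⁻¹ * t₀) ^ (-δ) ≤ (t₁ : ℝ) ^ (-δ) :=
          Real.rpow_le_rpow_of_nonpos ht₁0 g5 (by linarith)
        refine le_trans (le_of_eq ?_) g6
        rw [Real.mul_rpow (by norm_num) ht₀0.le, Real.inv_rpow (by norm_num), Real.rpow_neg (by norm_num : (0:ℝ) ≤ 3/2) δ, inv_inv]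
      have g7 : v t₀ = (t₀ : ℝ) ^ (-δ) := rfl
      linarith
    have g8 : (1 / 2 : ℝ) ^ (1 - σ) * (t₀ : ℝ) ^ (1 - σ) ≤ B σ t₁ := by
      rw [← Real.mul_rpow (by norm_num) ht₀0.le]
      refine le_trans ?_ (B_lower σ h0 t₁ ht₁1)
      apply Real.rpow_le_rpow (by positivity) _ hβ.le
      have : (t₀ : ℝ) ≤ 2 * t₁ := by exact_mod_cast ht₁a
      linarith
    have g9 : (1 / 2 ^ J : ℝ) ^ (1 - τ) * (n : ℝ) ^ (1 - τ) ≤ (t₀ : ℝ) ^ (1 - τ) := by
      rw [← Real.mul_rpow (by positivity) hn0.le]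
      apply Real.rpow_le_rpow (by positivity) _ hγ.le
      have : (n : ℝ) ≤ 2 ^ J * t₀ := by exact_mod_cast ht₀1
      rw [one_div, inv_mul_le_iff₀ (by positivity)]
      exact this
    have g10 := B_upper τ (by linarith) hτ n
    have g11 : (1 - τ) * B τ n ≤ (n : ℝ) ^ (1 - τ) := by
      rw [le_div_iff₀ hγ] at g10
      linarith
    have g12 : (t₀ : ℝ) ^ (1 - σ) * (t₀ : ℝ) ^ (-δ) = (t₀ : ℝ) ^ (1 - τ) := by
      rw [← Real.rpow_add ht₀0]
      congr 1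
      rw [hδ]; ring
    have a1 : (0 : ℝ) < (1 / 2) ^ (1 - σ) := Real.rpow_pos_of_pos (by norm_num) _
    have a2 : (0 : ℝ) < (1 / 2 ^ J) ^ (1 - τ) := Real.rpow_pos_of_pos (by positivity) _
    have a3 : (0 : ℝ) < (3 / 2) ^ δ - 1 := by linarith
    calc c₁ * B τ n = (1 / 2) ^ (1 - σ) * ((3 / 2) ^ δ - 1) * ((1 / 2 ^ J) ^ (1 - τ) * ((1 - τ) * B τ n)) := by
          rw [hc₁]; ring
      _ ≤ (1 / 2) ^ (1 - σ) * ((3 / 2) ^ δ - 1) * ((1 / 2 ^ J) ^ (1 - τ) * (n : ℝ) ^ (1 - τ)) := by gcongr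
      _ ≤ (1 / 2) ^ (1 - σ) * ((3 / 2) ^ δ - 1) * (t₀ : ℝ) ^ (1 - τ) := by gcongr
      _ = ((1 / 2 : ℝ) ^ (1 - σ) * (t₀ : ℝ) ^ (1 - σ)) * (((3 / 2 : ℝ) ^ δ - 1) * (t₀ : ℝ) ^ (-δ)) := by
          rw [← g12]; ring
      _ ≤ B σ t₁ * (v t₁ - v t₀) := by
          apply mul_le_mul g8 g3 (by positivity) (B_nonneg _ _)
  have hBN : B τ N ≤ (1 - σ) * c₁ / 16 * B τ n := by
    have h2 := hN₂ n (by omega)
    rw [div_le_iff₀ (by positivity)] at h2
    have h3 := B_lower τ (by linarith) n hn1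
    calc B τ N ≤ (n : ℝ) ^ (1 - τ) * ((1 - σ) * c₁ / 16) := h2
      _ ≤ B τ n * ((1 - σ) * c₁ / 16) := by gcongr
      _ = _ := by ring
  have hBpos := B_pos τ n hn1
  rw [hF, div_lt_iff₀ hBpos]
  have e1 : v n * W σ A ≤ v n * (Φ * B σ n) := mul_le_mul_of_nonneg_left hWσA (hvpos n)
  have e2 : Φ * B τ n = v n * (Φ * B σ n) + Φ * ∑ t ∈ Finset.Ico 1 n, (v t - v (t + 1)) * B σ t := by
    rw [hab n]; ring
  have e3 : (1 - σ) / 4 * (c₁ * B τ n) ≤
      (1 - σ) / 4 * ∑ t ∈ Finset.Ico t₁ t₀, (v t - v (t + 1)) * B σ t := by gcongr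
  have e4 : Φ * B τ n = F σ n * B τ n + (1 - σ) * c₁ / 16 * B τ n := by rw [hΦ]; ring
  have e5 : 0 < (1 - σ) * c₁ * B τ n := by positivity
  rw [hWA]
  nlinarith

theorem main (σ τ : ℝ) (h0 : 0 ≤ σ) (hστ : σ < τ) (hτ : τ ≤ 1) :
    ∃ n₀ : ℕ, ∀ n, n₀ < n → F τ n < F σ n := by
  rcases hτ.lt_or_eq with h | h
  · exact case_lt σ τ h0 hστ h
  · subst h
    exact case_one σ h0 hστ

end Pool.Agent.V11124.PW
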