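import Mathlib

set_option autoImplicit false

namespace Pool.Agent.V11124.PW

open Finset

/-- The part of `m` built from the primes of `M`. -/
def sm (M m : ℕ) : ℕ := Nat.gcd m M

/-- The rest. -/
def ro (M m : ℕ) : ℕ := m / Nat.gcd m M

/-- Dilation of `m` by `k` with offset `i`, keeping the small prime part. -/
def mp (M k m i : ℕ) : ℕ := sm M m * (M * (k * (ro M m / M) + i) + ro M m % M)

theorem sm_mul_ro (M m : ℕ) : sm M m * ro M m = m := Nat.mul_div_cancel' (Nat.gcd_dvd_left m M)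

theorem sm_le (M m : ℕ) (hM : 0 < M) : sm M m ≤ M := Nat.le_of_dvd hM (Nat.gcd_dvd_right m M)

theorem sm_pos (M m : ℕ) (hM : 0 < M) : 0 < sm M m := Nat.gcd_pos_of_pos_right _ hM

theorem mp_upper (M k m i : ℕ) (hM : 0 < M) (hi : i < k) : mp M k m i ≤ k * (m + M ^ 2) := by
  have h1 : m = sm M m * (M * (ro M m / M) + ro M m % M) := by
    rw [Nat.div_add_mod, sm_mul_ro]
  have h2 : ro M m % M < M := Nat.mod_lt _ hM
  have h3 := sm_le M m hM
  unfold mp
  set s := sm M m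
  set a := ro M m / M
  set b := ro M m % M
  have h4 : s * (M * (k * a + i) + b) ≤ s * (M * (k * a) + M * k) := by
    apply Nat.mul_le_mul_left
    have : M * (i + 1) ≤ M * k := Nat.mul_le_mul_left _ hi
    nlinarith
  have h5 : s * (M * a) ≤ m := by
    rw [h1]
    exact Nat.mul_le_mul_left _ (Nat.le_add_right _ _)
  calc s * (M * (k * a + i) + b) ≤ s * (M * (k * a) + M * k) := h4
    _ = k * (s * (M * a)) + k * (s * M) := by ring
    _ ≤ k * m + k * (M * M) := by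
        apply Nat.add_le_add
        · exact Nat.mul_le_mul_left _ h5
        · exact Nat.mul_le_mul_left _ (Nat.mul_le_mul_right _ h3)
    _ = k * (m + M ^ 2) := by ring

theorem mp_lower (M k m i : ℕ) (hM : 0 < M) : k * m ≤ mp M k m i + k * M ^ 2 := by
  have h1 : m = sm M m * (M * (ro M m / M) + ro M m % M) := by
    rw [Nat.div_add_mod, sm_mul_ro]
  have h2 : ro M m % M < M := Nat.mod_lt _ hM
  have h3 := sm_le M m hM
  unfold mp
  set s := sm M m
  set a := ro M m / M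
  set b := ro M m % M
  have h4 : m ≤ s * (M * a) + M * M := by
    calc m = s * (M * a) + s * b := by rw [h1]; ring
      _ ≤ s * (M * a) + M * M := by
          apply Nat.add_le_add_left
          exact Nat.mul_le_mul h3 h2.le
  calc k * m ≤ k * (s * (M * a) + M * M) := Nat.mul_le_mul_left _ h4
    _ = s * (M * (k * a)) + k * M ^ 2 := by ring
    _ ≤ s * (M * (k * a + i) + b) + k * M ^ 2 := by
        apply Nat.add_le_add_right
        apply Nat.mul_le_mul_left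
        nlinarith

theorem mp_dvd (M k y m₁ m₂ i₁ i₂ : ℕ) (hM : 0 < M) (hy : ∀ c, 1 ≤ c → c ≤ y → c ∣ M)
    (hg₁ : Nat.Coprime (ro M m₁) M) (hg₂ : Nat.Coprime (ro M m₂) M)
    (hi₁ : i₁ < k) (hi₂ : i₂ < k) (hpos : 0 < mp M k m₂ i₂)
    (hdvd : mp M k m₁ i₁ ∣ mp M k m₂ i₂) (hlt : mp M k m₂ i₂ < y * mp M k m₁ i₁) :
    m₁ ∣ m₂ ∧ ro M m₁ = ro M m₂ ∧ i₁ = i₂ := by
  unfold mp at hpos hdvd hlt
  have hs₁ : sm M m₁ ∣ M := Nat.gcd_dvd_right _ _
  have hs₂ : sm M m₂ ∣ M := Nat.gcd_dvd_right _ _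
  have hcop : ∀ m i, Nat.Coprime (ro M m) M →
      Nat.Coprime (M * (k * (ro M m / M) + i) + ro M m % M) M := by
    intro m i h
    have h1 : Nat.Coprime (ro M m % M) M := by
      unfold Nat.Coprime at h ⊢
      rw [← h, Nat.gcd_comm (ro M m) M, Nat.gcd_rec M (ro M m)]
    unfold Nat.Coprime at h1 ⊢
    rw [← h1]
    rw [Nat.gcd_comm, Nat.gcd_comm (ro M m % M)]
    simp [Nat.gcd_mul_left_add_right]
  have h1 := hcop m₁ i₁ hg₁
  have h2 := hcop m₂ i₂ hg₂
  set s₁ := sm M m₁ with hs1def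
  set s₂ := sm M m₂ with hs2def
  set x₁ := M * (k * (ro M m₁ / M) + i₁) + ro M m₁ % M with hx1
  set x₂ := M * (k * (ro M m₂ / M) + i₂) + ro M m₂ % M with hx2
  have hs2pos : 0 < s₂ := Nat.pos_of_mul_pos_right hpos |> fun _ => by
    rcases Nat.eq_zero_or_pos s₂ with h | h
    · rw [h, zero_mul] at hpos; exact absurd hpos (lt_irrefl _)
    · exact h
  have hx2pos : 0 < x₂ := by
    rcases Nat.eq_zero_or_pos x₂ with h | h
    · rw [h, mul_zero] at hpos; exact absurd hpos (lt_irrefl _)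
    · exact h
  have hx : x₁ ∣ x₂ := by
    have h3 : x₁ ∣ s₂ * x₂ := (Dvd.intro_left s₁ rfl).trans hdvd
    exact (Nat.Coprime.coprime_dvd_right hs₂ h1).dvd_of_dvd_mul_left h3
  have hs : s₁ ∣ s₂ := by
    have h3 : s₁ ∣ s₂ * x₂ := (Dvd.intro x₁ rfl).trans hdvd
    exact (Nat.Coprime.coprime_dvd_left hs₁ h2.symm).dvd_of_dvd_mul_right h3
  obtain ⟨c, hc⟩ := hx
  have hcpos : 1 ≤ c := by
    rcases Nat.eq_zero_or_pos c with h | h
    · rw [h, mul_zero] at hc; omega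
    · exact h
  have hcy : c ≤ y := by
    by_contra hcon
    push Not at hcon
    have h3 : y * (s₁ * x₁) ≤ s₂ * x₂ := by
      rw [hc]
      calc y * (s₁ * x₁) ≤ c * (s₂ * x₁) :=
            Nat.mul_le_mul hcon.le (Nat.mul_le_mul_right _ (Nat.le_of_dvd hs2pos hs))
        _ = s₂ * (x₁ * c) := by ring
    omega
  have hc1 : c = 1 := by
    have h3 : c ∣ M := hy c hcpos hcy
    have h4 : Nat.Coprime c M := Nat.Coprime.coprime_dvd_left (Dvd.intro_left x₁ hc.symm) h2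
    exact Nat.Coprime.eq_one_of_dvd h4 h3
  rw [hc1, mul_one] at hc
  -- x₁ = x₂
  have hmod₁ : x₁ % M = ro M m₁ % M := by
    rw [hx1, Nat.mul_add_mod]; exact Nat.mod_mod _ _
  have hmod₂ : x₂ % M = ro M m₂ % M := by
    rw [hx2, Nat.mul_add_mod]; exact Nat.mod_mod _ _
  have hdiv₁ : x₁ / M = k * (ro M m₁ / M) + i₁ := by
    rw [hx1, Nat.mul_add_div hM, Nat.div_eq_of_lt (Nat.mod_lt _ hM), add_zero]
  have hdiv₂ : x₂ / M = k * (ro M m₂ / M) + i₂ := by
    rw [hx2, Nat.mul_add_div hM, Nat.div_eq_of_lt (Nat.mod_lt _ hM), add_zero]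
  have hkpos : 0 < k := by omega
  have hmod : ro M m₁ % M = ro M m₂ % M := by rw [← hmod₁, ← hmod₂, hc]
  have hd : k * (ro M m₁ / M) + i₁ = k * (ro M m₂ / M) + i₂ := by rw [← hdiv₁, ← hdiv₂, hc]
  have hi : i₁ = i₂ := by
    have h3 : (k * (ro M m₁ / M) + i₁) % k = i₁ := by
      rw [Nat.mul_add_mod]; exact Nat.mod_eq_of_lt hi₁
    have h4 : (k * (ro M m₂ / M) + i₂) % k = i₂ := by
      rw [Nat.mul_add_mod]; exact Nat.mod_eq_of_lt hi₂
    rw [← h3, ← h4, hd]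
  have ha : ro M m₁ / M = ro M m₂ / M := by
    rw [hi] at hd
    exact Nat.eq_of_mul_eq_mul_left hkpos (Nat.add_right_cancel hd)
  have hr : ro M m₁ = ro M m₂ := by
    rw [← Nat.div_add_mod (ro M m₁) M, ← Nat.div_add_mod (ro M m₂) M, ha, hmod]
  refine ⟨?_, hr, hi⟩
  rw [← sm_mul_ro M m₁, ← sm_mul_ro M m₂, hr]
  exact Nat.mul_dvd_mul_right hs _

theorem bad_dvd (y e m : ℕ) (hm : 0 < m)
    (hb : ¬ Nat.Coprime (ro ((y.factorial) ^ e) m) ((y.factorial) ^ e)) :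
    ∃ p : ℕ, p.Prime ∧ p ≤ y ∧ p ^ (e + 1) ∣ m := by
  obtain ⟨p, hp, h1, h2⟩ := Nat.Prime.not_coprime_iff_dvd.1 hb
  have h3 : p ∣ y.factorial := hp.dvd_of_dvd_pow h2
  refine ⟨p, hp, (hp.dvd_factorial).1 h3, ?_⟩
  by_contra hcon
  set v := m.factorization p with hv
  have hve : v ≤ e := by
    by_contra h4
    push Not at h4
    exact hcon ((hp.pow_dvd_iff_le_factorization hm.ne').2 h4)
  have h4 : p ^ v ∣ m := Nat.ordProj_dvd m p
  have h5 : p ^ v ∣ (y.factorial) ^ e :=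
    (pow_dvd_pow p hve).trans (pow_dvd_pow_of_dvd h3 e)
  have h6 : p ^ v ∣ sm ((y.factorial) ^ e) m := Nat.dvd_gcd h4 h5
  have h7 : p ^ (v + 1) ∣ m := by
    rw [← sm_mul_ro ((y.factorial) ^ e) m, pow_succ]
    exact Nat.mul_dvd_mul h6 h1
  exact Nat.pow_succ_factorization_not_dvd hm.ne' hp h7

end Pool.Agent.V11124.PW
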