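import Pool.Agent.V11124.PW.Basic
import Pool.Agent.V11124.PW.Scale0

set_option autoImplicit false

namespace Pool.Agent.V11124.PW

open Finset

theorem W_mult (σ : ℝ) (h0 : 0 ≤ σ) (h1 : σ < 1) (t Q : ℕ) (hQ : 1 ≤ Q) :
    W σ ((Finset.Icc 1 t).filter (Q ∣ ·)) ≤ (t : ℝ) ^ (1 - σ) / ((1 - σ) * Q) := by
  classical
  have hβ : 0 < 1 - σ := by linarith
  have hQ0 : (0 : ℝ) < Q := by exact_mod_cast hQ
  have hset : (Finset.Icc 1 t).filter (Q ∣ ·) = (Finset.Icc 1 (t / Q)).image (fun j => Q * j) := by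
    ext m
    simp only [mem_filter, mem_Icc, mem_image]
    constructor
    · rintro ⟨⟨hm1, hm2⟩, ⟨j, rfl⟩⟩
      refine ⟨j, ⟨?_, ?_⟩, rfl⟩
      · rcases Nat.eq_zero_or_pos j with h | h
        · subst h; simp at hm1
        · exact h
      · rw [Nat.le_div_iff_mul_le hQ, mul_comm]; exact hm2
    · rintro ⟨j, ⟨hj1, hj2⟩, rfl⟩
      refine ⟨⟨Nat.mul_pos hQ hj1, ?_⟩, Dvd.intro _ rfl⟩
      rw [Nat.le_div_iff_mul_le hQ] at hj2
      rw [mul_comm]; exact hj2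
  rw [hset]
  unfold W
  rw [Finset.sum_image (by intro a _ b _ h; exact Nat.eq_of_mul_eq_mul_left hQ h)]
  have h2 : ∑ j ∈ Finset.Icc 1 (t / Q), ((Q * j : ℕ) : ℝ) ^ (-σ) = (Q : ℝ) ^ (-σ) * B σ (t / Q) := by
    unfold B W
    rw [Finset.mul_sum]
    refine Finset.sum_congr rfl fun j _ => ?_
    rw [Nat.cast_mul, Real.mul_rpow hQ0.le (Nat.cast_nonneg j)]
  rw [h2]
  have h3 := B_upper σ h0 h1 (t / Q)
  have h4 : (((t / Q : ℕ) : ℝ)) ^ (1 - σ) ≤ ((t : ℝ) / Q) ^ (1 - σ) := by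
    apply Real.rpow_le_rpow (Nat.cast_nonneg _) Nat.cast_div_le hβ.le
  have hQs : (0 : ℝ) < (Q : ℝ) ^ (-σ) := Real.rpow_pos_of_pos hQ0 _
  calc (Q : ℝ) ^ (-σ) * B σ (t / Q) ≤ (Q : ℝ) ^ (-σ) * (((t : ℝ) / Q) ^ (1 - σ) / (1 - σ)) := by
        gcongr
        exact h3.trans (by gcongr)
    _ = (t : ℝ) ^ (1 - σ) / ((1 - σ) * Q) := by
        rw [Real.div_rpow (Nat.cast_nonneg t) hQ0.le]
        have h5 : (Q : ℝ) ^ (1 - σ) = Q * (Q : ℝ) ^ (-σ) := by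
          rw [sub_eq_add_neg, Real.rpow_add hQ0, Real.rpow_one]
        rw [h5]
        field_simp

theorem int_scale (σ : ℝ) (h0 : 0 ≤ σ) (h1 : σ < 1) (κ : ℝ) (hκ : 0 < κ) :
    ∃ t₀ : ℕ, 1 ≤ t₀ ∧ ∀ t k : ℕ, t₀ ≤ t → 1 ≤ k → F σ t - κ ≤ F σ (k * t) := by
  classical
  have hβ : 0 < 1 - σ := by linarith
  -- choose y
  obtain ⟨y, hy2, hy⟩ : ∃ y : ℕ, 2 ≤ y ∧ ((2 : ℝ) / y) ^ (1 - σ) / (1 - σ) ≤ κ / 8 := by
    have hc : 0 < (κ / 8 * (1 - σ)) ^ (1 / (1 - σ)) := Real.rpow_pos_of_pos (by positivity) _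
    obtain ⟨y, hy⟩ := exists_nat_gt (2 / (κ / 8 * (1 - σ)) ^ (1 / (1 - σ)))
    refine ⟨y + 2, by omega, ?_⟩
    have hy0 : (0 : ℝ) < ((y + 2 : ℕ) : ℝ) := by positivity
    have h2 : (2 : ℝ) / ((y + 2 : ℕ) : ℝ) ≤ (κ / 8 * (1 - σ)) ^ (1 / (1 - σ)) := by
      rw [div_le_iff₀ hy0]
      rw [div_lt_iff₀ hc] at hy
      push_cast
      nlinarith
    have h3 : ((2 : ℝ) / ((y + 2 : ℕ) : ℝ)) ^ (1 - σ) ≤ κ / 8 * (1 - σ) := by
      calc _ ≤ ((κ / 8 * (1 - σ)) ^ (1 / (1 - σ))) ^ (1 - σ) :=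
            Real.rpow_le_rpow (by positivity) h2 hβ.le
        _ = κ / 8 * (1 - σ) := by
            rw [← Real.rpow_mul (by positivity), one_div, inv_mul_cancel₀ hβ.ne', Real.rpow_one]
    rw [div_le_iff₀ hβ]
    exact h3
  obtain ⟨e, he1, he⟩ : ∃ e : ℕ, 1 ≤ e ∧ (y : ℝ) / ((1 - σ) * 2 ^ (e + 1)) ≤ κ / 8 := by
    obtain ⟨N, hN⟩ := exists_nat_gt ((y : ℝ) / ((1 - σ) * (κ / 8)))
    refine ⟨N + 1, by omega, ?_⟩
    have h2 : (N : ℝ) < 2 ^ N := by exact_mod_cast Nat.lt_two_pow_self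
    have h3 : (2 : ℝ) ^ N ≤ 2 ^ (N + 1 + 1) := pow_le_pow_right₀ (by norm_num) (by omega)
    rw [div_lt_iff₀ (by positivity)] at hN
    rw [div_le_iff₀ (by positivity)]
    have h4 : (N : ℝ) ≤ 2 ^ (N + 1 + 1) := by linarith
    have h5 : (0 : ℝ) < (1 - σ) * (κ / 8) := by positivity
    nlinarith
  set M : ℕ := (y.factorial) ^ e with hM
  have hMpos : 0 < M := pow_pos (Nat.factorial_pos y) e
  have hyM : ∀ c, 1 ≤ c → c ≤ y → c ∣ M := fun c hc1 hc2 =>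
    (Nat.dvd_factorial hc1 hc2).trans (dvd_pow_self _ (by omega))
  set C : ℕ := M ^ 2 with hC
  -- eventual conditions
  have hev : ∀ᶠ t : ℕ in Filter.atTop, (C * y < t ∧ 4 * (C : ℝ) * y ≤ κ * t) ∧
      ((C : ℝ) ≤ κ / 8 * (t : ℝ) ^ (1 - σ) ∧ 1 / (1 - σ) ≤ κ / 8 * (t : ℝ) ^ (1 - σ)) := by
    have hT : Filter.Tendsto (fun t : ℕ => (t : ℝ) ^ (1 - σ)) Filter.atTop Filter.atTop :=
      (tendsto_rpow_atTop hβ).comp tendsto_natCast_atTop_atTop
    have hT2 : Filter.Tendsto (fun t : ℕ => (t : ℝ)) Filter.atTop Filter.atTop :=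
      tendsto_natCast_atTop_atTop
    filter_upwards [Filter.eventually_gt_atTop (C * y),
      hT2.eventually_ge_atTop (4 * (C : ℝ) * y / κ),
      hT.eventually_ge_atTop ((C : ℝ) / (κ / 8)),
      hT.eventually_ge_atTop (1 / (1 - σ) / (κ / 8))] with t ha hb hc hd
    refine ⟨⟨ha, ?_⟩, ?_, ?_⟩
    · rw [div_le_iff₀ hκ] at hb; linarith
    · rw [div_le_iff₀ (by positivity)] at hc; linarith
    · rw [div_le_iff₀ (by positivity)] at hd; linarith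
  obtain ⟨t₀, ht₀⟩ := Filter.eventually_atTop.1 hev
  refine ⟨t₀ + 1, by omega, fun t k ht hk => ?_⟩
  obtain ⟨⟨ha, hb⟩, hc, hd⟩ := ht₀ t (by omega)
  have ht1 : 1 ≤ t := by omega
  have ht0 : (0 : ℝ) < t := by exact_mod_cast ht1
  have hk0 : (0 : ℝ) < k := by exact_mod_cast hk
  obtain ⟨A, hA, hprim, hF⟩ := exists_F σ t
  by_cases hsmall : F σ t ≤ κ
  · have := F_nonneg σ (k * t); linarith
  push Not at hsmall
  set G := A.filter (fun m => 2 * t ≤ m * y ∧ m + C ≤ t ∧ Nat.Coprime (ro M m) M) with hG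
  have hGm : ∀ m ∈ G, (1 ≤ m ∧ m ≤ t) ∧ m ∈ A ∧ 2 * t ≤ m * y ∧ m + C ≤ t ∧
      Nat.Coprime (ro M m) M := by
    intro m hm
    rw [hG, mem_filter] at hm
    exact ⟨mem_Icc.1 (hA hm.1), hm.1, hm.2.1, hm.2.2.1, hm.2.2.2⟩
  have hGC : ∀ m ∈ G, C < m := by
    intro m hm
    obtain ⟨_, _, h2, _, _⟩ := hGm m hm
    by_contra h3
    push Not at h3
    have : m * y ≤ C * y := Nat.mul_le_mul_right _ h3
    omega
  have hmppos : ∀ m ∈ G, ∀ i, 0 < mp M k m i := by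
    intro m hm i
    have h2 := mp_lower M k m i hMpos
    have h3 : k * C < k * m := Nat.mul_lt_mul_of_pos_left (hGC m hm) hk
    rw [← hC] at h2
    omega
  have hcore : ∀ m₁ ∈ G, ∀ m₂ ∈ G, ∀ i₁ < k, ∀ i₂ < k, mp M k m₁ i₁ ∣ mp M k m₂ i₂ →
      m₁ = m₂ ∧ i₁ = i₂ := by
    intro m₁ hm₁ m₂ hm₂ i₁ hi₁ i₂ hi₂ hdvd
    obtain ⟨_, hA₁, h2₁, h3₁, h4₁⟩ := hGm m₁ hm₁
    obtain ⟨_, hA₂, h2₂, h3₂, h4₂⟩ := hGm m₂ hm₂
    have hlt : mp M k m₂ i₂ < y * mp M k m₁ i₁ := by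
      have h5 := mp_upper M k m₂ i₂ hMpos hi₂
      have h6 := mp_lower M k m₁ i₁ hMpos
      rw [← hC] at h5 h6
      have h7 : k * (m₂ + C) ≤ k * t := Nat.mul_le_mul_left _ h3₂
      have h8 : y * (k * m₁) ≤ y * (mp M k m₁ i₁ + k * C) := Nat.mul_le_mul_left _ h6
      have h9 : k * (2 * t) ≤ k * (m₁ * y) := Nat.mul_le_mul_left _ h2₁
      have h10 : k * (C * y) < k * t := Nat.mul_lt_mul_of_pos_left ha hk
      have h11 : y * (k * m₁) = k * (m₁ * y) := by ring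
      have h12 : y * (mp M k m₁ i₁ + k * C) = y * mp M k m₁ i₁ + k * (C * y) := by ring
      have h13 : k * (2 * t) = 2 * (k * t) := by ring
      omega
    obtain ⟨h5, _, h7⟩ := mp_dvd M k y m₁ m₂ i₁ i₂ hMpos hyM h4₁ h4₂ hi₁ hi₂ (hmppos m₂ hm₂ i₂) hdvd hlt
    exact ⟨hprim m₁ hA₁ m₂ hA₂ h5, h7⟩
  set A' := (G ×ˢ Finset.range k).image (fun z : ℕ × ℕ => mp M k z.1 z.2) with hA'
  have hA'sub : A' ⊆ Finset.Icc 1 (k * t) := by
    intro m' hm'
    rw [hA', mem_image] at hm'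
    obtain ⟨⟨m, i⟩, hz, rfl⟩ := hm'
    rw [mem_product, mem_range] at hz
    obtain ⟨hm, hi⟩ := hz
    simp only at hm hi ⊢
    rw [mem_Icc]
    refine ⟨hmppos m hm i, (mp_upper M k m i hMpos hi).trans ?_⟩
    exact Nat.mul_le_mul_left _ (hGm m hm).2.2.2.1
  have hA'prim : Prim A' := by
    intro u hu v hv hd
    rw [hA', mem_image] at hu hv
    obtain ⟨⟨m₁, i₁⟩, hz₁, rfl⟩ := hu
    obtain ⟨⟨m₂, i₂⟩, hz₂, rfl⟩ := hv
    rw [mem_product, mem_range] at hz₁ hz₂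
    obtain ⟨h5, h6⟩ := hcore m₁ hz₁.1 m₂ hz₂.1 i₁ hz₁.2 i₂ hz₂.2 hd
    rw [h5, h6]
  have hinj : Set.InjOn (fun z : ℕ × ℕ => mp M k z.1 z.2)
      ((G ×ˢ Finset.range k : Finset (ℕ × ℕ)) : Set (ℕ × ℕ)) := by
    rintro ⟨m₁, i₁⟩ hz₁ ⟨m₂, i₂⟩ hz₂ h
    simp only [coe_product, Set.mem_prod, SetLike.mem_coe, mem_range] at hz₁ hz₂ h
    obtain ⟨h5, h6⟩ := hcore m₁ hz₁.1 m₂ hz₂.1 i₁ hz₁.2 i₂ hz₂.2 (by rw [h])
    rw [h5, h6]
  -- weight of A'
  have hWA' : (k : ℝ) ^ (1 - σ) * (1 - κ / 8) * W σ G ≤ W σ A' := by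
    have h2 : W σ A' = ∑ z ∈ G ×ˢ Finset.range k, ((mp M k z.1 z.2 : ℕ) : ℝ) ^ (-σ) := by
      unfold W
      rw [hA', Finset.sum_image hinj]
    rw [h2, Finset.sum_product]
    have h3 : ∀ m ∈ G, (k : ℝ) ^ (1 - σ) * (1 - κ / 8) * (m : ℝ) ^ (-σ) ≤
        ∑ i ∈ Finset.range k, ((mp M k m i : ℕ) : ℝ) ^ (-σ) := by
      intro m hm
      obtain ⟨⟨hm1, _⟩, _, h2m, _, _⟩ := hGm m hm
      have hm0 : (0 : ℝ) < m := by exact_mod_cast hm1
      have hCm : (C : ℝ) ≤ κ / 8 * m := by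
        have hy0 : (0 : ℝ) < y := by exact_mod_cast (by omega : 0 < y)
        have h4 : 2 * (t : ℝ) ≤ m * y := by exact_mod_cast h2m
        have h5 : (C : ℝ) * y ≤ (κ / 8 * m) * y := by nlinarith
        exact le_of_mul_le_mul_right h5 hy0
      have h4 : ∀ i ∈ Finset.range k, (k : ℝ) ^ (-σ) * (1 - κ / 8) * (m : ℝ) ^ (-σ) ≤
          ((mp M k m i : ℕ) : ℝ) ^ (-σ) := by
        intro i hi
        have h5 : ((mp M k m i : ℕ) : ℝ) ≤ k * (m * (1 + κ / 8)) := by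
          have h6 := mp_upper M k m i hMpos (mem_range.1 hi)
          rw [← hC] at h6
          have h7 : ((mp M k m i : ℕ) : ℝ) ≤ k * (m + C) := by exact_mod_cast h6
          refine h7.trans ?_
          apply mul_le_mul_of_nonneg_left _ hk0.le
          linarith
        have h6 : (0 : ℝ) < ((mp M k m i : ℕ) : ℝ) := by exact_mod_cast hmppos m hm i
        have h7 : (k * (m * (1 + κ / 8)) : ℝ) ^ (-σ) ≤ ((mp M k m i : ℕ) : ℝ) ^ (-σ) :=
          Real.rpow_le_rpow_of_nonpos h6 h5 (by linarith)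
        refine le_trans ?_ h7
        rw [Real.mul_rpow hk0.le (by positivity), Real.mul_rpow hm0.le (by positivity)]
        have h8 : (1 - κ / 8 : ℝ) ≤ (1 + κ / 8) ^ (-σ) := by
          calc (1 - κ / 8 : ℝ) ≤ (1 + κ / 8)⁻¹ := by
                rw [← one_div, le_div_iff₀ (by positivity)]
                nlinarith [sq_nonneg κ]
            _ = (1 + κ / 8) ^ (-1 : ℝ) := by rw [Real.rpow_neg_one]
            _ ≤ _ := Real.rpow_le_rpow_of_exponent_le (by linarith) (by linarith)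
        have hk2 : (0 : ℝ) < (k : ℝ) ^ (-σ) := Real.rpow_pos_of_pos hk0 _
        have hm2 : (0 : ℝ) < (m : ℝ) ^ (-σ) := Real.rpow_pos_of_pos hm0 _
        calc (k : ℝ) ^ (-σ) * (1 - κ / 8) * (m : ℝ) ^ (-σ)
            = (k : ℝ) ^ (-σ) * ((m : ℝ) ^ (-σ) * (1 - κ / 8)) := by ring
          _ ≤ _ := by gcongr
      have h5 := Finset.sum_le_sum h4
      rw [Finset.sum_const, Finset.card_range, nsmul_eq_mul] at h5
      refine le_trans (le_of_eq ?_) h5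
      rw [sub_eq_add_neg, Real.rpow_add hk0, Real.rpow_one]
      ring
    calc (k : ℝ) ^ (1 - σ) * (1 - κ / 8) * W σ G
        = ∑ m ∈ G, (k : ℝ) ^ (1 - σ) * (1 - κ / 8) * (m : ℝ) ^ (-σ) := by
          unfold W; rw [Finset.mul_sum]
      _ ≤ _ := Finset.sum_le_sum h3
  -- the loss
  have hloss : W σ A ≤ W σ G + 3 * (κ / 8) * (t : ℝ) ^ (1 - σ) := by
    set G1 := (Finset.Icc 1 t).filter (fun m => m * y < 2 * t) with hG1
    set G2 := (Finset.Icc 1 t).filter (fun m => t < m + C) with hG2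
    set G3 := (Finset.Icc 1 t).filter (fun m => ¬ Nat.Coprime (ro M m) M) with hG3
    have hcov : A ⊆ G ∪ (G1 ∪ (G2 ∪ G3)) := by
      intro m hm
      simp only [mem_union, hG, hG1, hG2, hG3, mem_filter]
      have := hA hm
      by_cases c1 : 2 * t ≤ m * y
      · by_cases c2 : m + C ≤ t
        · by_cases c3 : Nat.Coprime (ro M m) M
          · exact Or.inl ⟨hm, c1, c2, c3⟩
          · exact Or.inr (Or.inr (Or.inr ⟨this, c3⟩))
        · exact Or.inr (Or.inr (Or.inl ⟨this, by omega⟩))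
      · exact Or.inr (Or.inl ⟨this, by omega⟩)
    have hun : ∀ X Y : Finset ℕ, W σ (X ∪ Y) ≤ W σ X + W σ Y := by
      intro X Y
      unfold W
      rw [← Finset.sum_union_inter]
      have : 0 ≤ ∑ a ∈ X ∩ Y, (a : ℝ) ^ (-σ) :=
        Finset.sum_nonneg fun a _ => Real.rpow_nonneg (Nat.cast_nonneg a) _
      linarith
    have hy0 : (0 : ℝ) < y := by exact_mod_cast (by omega : 0 < y)
    have b1 : W σ G1 ≤ κ / 8 * (t : ℝ) ^ (1 - σ) := by
      have h2 : G1 ⊆ Finset.Icc 1 (2 * t / y) := by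
        intro m hm
        rw [hG1, mem_filter, mem_Icc] at hm
        rw [mem_Icc]
        refine ⟨hm.1.1, ?_⟩
        rw [Nat.le_div_iff_mul_le (by omega)]
        exact hm.2.le
      calc W σ G1 ≤ B σ (2 * t / y) := W_mono σ h2
        _ ≤ ((2 * t / y : ℕ) : ℝ) ^ (1 - σ) / (1 - σ) := B_upper σ h0 h1 _
        _ ≤ ((2 : ℝ) / y * t) ^ (1 - σ) / (1 - σ) := by
            gcongr
            calc ((2 * t / y : ℕ) : ℝ) ≤ ((2 * t : ℕ) : ℝ) / y := Nat.cast_div_le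
              _ = (2 : ℝ) / y * t := by push_cast; ring
        _ = ((2 : ℝ) / y) ^ (1 - σ) / (1 - σ) * (t : ℝ) ^ (1 - σ) := by
            rw [Real.mul_rpow (by positivity) ht0.le]; ring
        _ ≤ κ / 8 * (t : ℝ) ^ (1 - σ) := by gcongr
    have b2 : W σ G2 ≤ κ / 8 * (t : ℝ) ^ (1 - σ) := by
      refine le_trans ?_ hc
      have h2 : ∀ m ∈ G2, (m : ℝ) ^ (-σ) ≤ 1 := by
        intro m hm
        rw [hG2, mem_filter, mem_Icc] at hm
        exact Real.rpow_le_one_of_one_le_of_nonpos (by exact_mod_cast hm.1.1) (by linarith)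
      have h3 := Finset.sum_le_sum h2
      rw [Finset.sum_const, nsmul_eq_mul, mul_one] at h3
      refine h3.trans ?_
      have h4 : G2 ⊆ Finset.Ioc (t - C) t := by
        intro m hm
        rw [hG2, mem_filter, mem_Icc] at hm
        rw [mem_Ioc]
        omega
      have h5 := Finset.card_le_card h4
      rw [Nat.card_Ioc] at h5
      exact_mod_cast h5.trans (by omega)
    have b3 : W σ G3 ≤ κ / 8 * (t : ℝ) ^ (1 - σ) := by
      have h2 : ∀ m ∈ G3, (m : ℝ) ^ (-σ) ≤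
          ∑ p ∈ Finset.Icc 2 y, if p ^ (e + 1) ∣ m then (m : ℝ) ^ (-σ) else 0 := by
        intro m hm
        rw [hG3, mem_filter, mem_Icc] at hm
        obtain ⟨p, hp, hpy, hpd⟩ := bad_dvd y e m (by omega) hm.2
        have h3 : (if p ^ (e + 1) ∣ m then (m : ℝ) ^ (-σ) else 0) ≤
            ∑ p ∈ Finset.Icc 2 y, if p ^ (e + 1) ∣ m then (m : ℝ) ^ (-σ) else 0 := by
          apply Finset.single_le_sum (f := fun p => if p ^ (e + 1) ∣ m then (m : ℝ) ^ (-σ) else 0)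
          · intro q _
            split_ifs
            · exact Real.rpow_nonneg (Nat.cast_nonneg m) _
            · exact le_refl _
          · rw [mem_Icc]; exact ⟨hp.two_le, hpy⟩
        rw [if_pos hpd] at h3
        exact h3
      calc W σ G3 ≤ ∑ m ∈ G3, ∑ p ∈ Finset.Icc 2 y, (if p ^ (e + 1) ∣ m then (m : ℝ) ^ (-σ) else 0) :=
            Finset.sum_le_sum h2
        _ ≤ ∑ m ∈ Finset.Icc 1 t, ∑ p ∈ Finset.Icc 2 y, (if p ^ (e + 1) ∣ m then (m : ℝ) ^ (-σ) else 0) := by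
            refine Finset.sum_le_sum_of_subset_of_nonneg (Finset.filter_subset _ _) fun m _ _ => ?_
            refine Finset.sum_nonneg fun p _ => ?_
            split_ifs
            · exact Real.rpow_nonneg (Nat.cast_nonneg m) _
            · exact le_refl _
        _ = ∑ p ∈ Finset.Icc 2 y, W σ ((Finset.Icc 1 t).filter (p ^ (e + 1) ∣ ·)) := by
            rw [Finset.sum_comm]
            refine Finset.sum_congr rfl fun p _ => ?_
            unfold W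
            rw [Finset.sum_filter]
        _ ≤ ∑ p ∈ Finset.Icc 2 y, (t : ℝ) ^ (1 - σ) / ((1 - σ) * 2 ^ (e + 1)) := by
            refine Finset.sum_le_sum fun p hp => ?_
            have hp2 := (mem_Icc.1 hp).1
            refine (W_mult σ h0 h1 t (p ^ (e + 1)) (Nat.pos_of_ne_zero (by positivity))).trans ?_
            have h4 : (2 : ℝ) ^ (e + 1) ≤ ((p ^ (e + 1) : ℕ) : ℝ) := by
              push_cast
              exact pow_le_pow_left₀ (by norm_num) (by exact_mod_cast hp2) _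
            gcongr
        _ = ((Finset.Icc 2 y).card : ℝ) * ((t : ℝ) ^ (1 - σ) / ((1 - σ) * 2 ^ (e + 1))) := by
            rw [Finset.sum_const, nsmul_eq_mul]
        _ ≤ (y : ℝ) * ((t : ℝ) ^ (1 - σ) / ((1 - σ) * 2 ^ (e + 1))) := by
            have : ((Finset.Icc 2 y).card : ℝ) ≤ y := by
              rw [Nat.card_Icc]
              exact_mod_cast (by omega : y + 1 - 2 ≤ y)
            gcongr
        _ = (y : ℝ) / ((1 - σ) * 2 ^ (e + 1)) * (t : ℝ) ^ (1 - σ) := by ring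
        _ ≤ κ / 8 * (t : ℝ) ^ (1 - σ) := by gcongr
    have h3 := W_mono σ hcov
    have h4 := hun G (G1 ∪ (G2 ∪ G3))
    have h5 := hun G1 (G2 ∪ G3)
    have h6 := hun G2 G3
    linarith
  -- final estimate
  have hBt := B_lower σ h0 t ht1
  have hBt' := B_lower' σ h0 h1 t
  have hBpos := B_pos σ t ht1
  have hkt : 1 ≤ k * t := Nat.mul_pos hk ht1
  have hBkt : B σ (k * t) ≤ (k : ℝ) ^ (1 - σ) * (B σ t + 1 / (1 - σ)) := by
    have h2 := B_upper σ h0 h1 (k * t)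
    have h3 : ((k * t : ℕ) : ℝ) ^ (1 - σ) = (k : ℝ) ^ (1 - σ) * (t : ℝ) ^ (1 - σ) := by
      rw [Nat.cast_mul, Real.mul_rpow hk0.le ht0.le]
    rw [h3] at h2
    refine h2.trans ?_
    rw [mul_div_assoc]
    have h4 : (t : ℝ) ^ (1 - σ) ≤ ((t : ℝ) + 1) ^ (1 - σ) :=
      Real.rpow_le_rpow ht0.le (by linarith) hβ.le
    have h5 : (t : ℝ) ^ (1 - σ) / (1 - σ) ≤ B σ t + 1 / (1 - σ) := by
      have h6 : (t : ℝ) ^ (1 - σ) / (1 - σ) ≤ ((t : ℝ) + 1) ^ (1 - σ) / (1 - σ) := by gcongr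
      rw [sub_div] at hBt'
      linarith
    gcongr
  have hBktpos := B_pos σ (k * t) hkt
  have hle := le_F σ (k * t) A' hA'sub hA'prim
  refine le_trans ?_ hle
  rw [le_div_iff₀ hBktpos]
  have hkb : (0 : ℝ) < (k : ℝ) ^ (1 - σ) := Real.rpow_pos_of_pos hk0 _
  set ρ := F σ t with hρ
  have hρ1 : ρ ≤ 1 := F_le_one σ t
  have hWA : W σ A = ρ * B σ t := by rw [hF]; field_simp
  have hκ1 : κ < 1 := lt_of_lt_of_le hsmall hρ1
  have hWG : (ρ - 3 * (κ / 8)) * B σ t ≤ W σ G := by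
    have : 3 * (κ / 8) * (t : ℝ) ^ (1 - σ) ≤ 3 * (κ / 8) * B σ t := by gcongr
    nlinarith
  have hinv : 1 / (1 - σ) ≤ κ / 8 * B σ t := hd.trans (by gcongr)
  calc (ρ - κ) * B σ (k * t) ≤ (ρ - κ) * ((k : ℝ) ^ (1 - σ) * (B σ t + 1 / (1 - σ))) := by
        apply mul_le_mul_of_nonneg_left hBkt (by linarith)
    _ ≤ (ρ - κ) * ((k : ℝ) ^ (1 - σ) * (B σ t + κ / 8 * B σ t)) := by
        apply mul_le_mul_of_nonneg_left _ (by linarith)
        gcongr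
    _ = (k : ℝ) ^ (1 - σ) * B σ t * ((ρ - κ) * (1 + κ / 8)) := by ring
    _ ≤ (k : ℝ) ^ (1 - σ) * B σ t * ((1 - κ / 8) * (ρ - 3 * (κ / 8))) := by
        apply mul_le_mul_of_nonneg_left _ (by positivity)
        nlinarith
    _ = (k : ℝ) ^ (1 - σ) * (1 - κ / 8) * ((ρ - 3 * (κ / 8)) * B σ t) := by ring
    _ ≤ (k : ℝ) ^ (1 - σ) * (1 - κ / 8) * W σ G := by
        apply mul_le_mul_of_nonneg_left hWG
        apply mul_nonneg hkb.le
        linarith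
    _ ≤ W σ A' := hWA'

end Pool.Agent.V11124.PW
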