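import Mathlib

set_option autoImplicit false

namespace Pool.Agent.V11124.PW

open Finset

/-- Sperner's theorem for the members of an antichain that lie inside a finite set. -/
theorem sperner_on {α : Type*} [DecidableEq α] (D : Finset α) (𝒜 : Finset (Finset α))
    (h𝒜 : IsAntichain (· ⊆ ·) (𝒜 : Set (Finset α))) :
    (𝒜.filter (· ⊆ D)).card ≤ D.card.choose (D.card / 2) := by
  classical
  have key : ∀ E F : Finset α, E ⊆ D → E.subtype (· ∈ D) ⊆ F.subtype (· ∈ D) → E ⊆ F := by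
    intro E F hE h a ha
    have h1 : (⟨a, hE ha⟩ : {x // x ∈ D}) ∈ E.subtype (· ∈ D) := by
      simpa using ha
    have := h h1
    simpa using this
  have hinj : Set.InjOn (fun E : Finset α => E.subtype (· ∈ D))
      ((𝒜.filter (· ⊆ D) : Finset (Finset α)) : Set (Finset α)) := by
    intro E hE F hF h
    simp only [coe_filter, Set.mem_ofPred_eq] at hE hF
    exact Finset.Subset.antisymm (key E F hE.2 (by simpa using h.le))
      (key F E hF.2 (by simpa using h.ge))
  rw [← Finset.card_image_of_injOn hinj]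
  have hc : Fintype.card {x // x ∈ D} = D.card := Fintype.card_coe D
  rw [← hc]
  apply IsAntichain.sperner
  intro X hX Y hY hne hle
  simp only [SetLike.mem_coe, mem_image, mem_filter] at hX hY
  obtain ⟨E, ⟨hE, hED⟩, rfl⟩ := hX
  obtain ⟨F, ⟨hF, hFD⟩, rfl⟩ := hY
  have h1 : E ⊆ F := key E F hED hle
  have h2 : E ≠ F := by rintro rfl; exact hne rfl
  exact h𝒜 (by simpa using hE) (by simpa using hF) h2 h1

theorem centralBinom_sq (m : ℕ) : (Nat.centralBinom m) ^ 2 * (2 * m + 1) ≤ 16 ^ m := by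
  induction m with
  | zero => simp
  | succ m ih =>
    have h := Nat.succ_mul_centralBinom_succ m
    have h2 : (m + 1) ^ 2 * ((Nat.centralBinom (m + 1)) ^ 2 * (2 * (m + 1) + 1))
        ≤ (m + 1) ^ 2 * 16 ^ (m + 1) := by
      calc (m + 1) ^ 2 * ((Nat.centralBinom (m + 1)) ^ 2 * (2 * (m + 1) + 1))
          = ((m + 1) * Nat.centralBinom (m + 1)) ^ 2 * (2 * m + 3) := by ring
        _ = (2 * (2 * m + 1) * Nat.centralBinom m) ^ 2 * (2 * m + 3) := by rw [h]
        _ = (Nat.centralBinom m ^ 2 * (2 * m + 1)) * (4 * ((2 * m + 1) * (2 * m + 3))) := by ring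
        _ ≤ 16 ^ m * (4 * (4 * (m + 1) ^ 2)) := by
            apply Nat.mul_le_mul ih
            nlinarith
        _ = (m + 1) ^ 2 * 16 ^ (m + 1) := by ring
    exact Nat.le_of_mul_le_mul_left h2 (by positivity)

theorem choose_half_small (g : ℝ) (hg : 0 < g) :
    ∃ L : ℕ, ∀ n : ℕ, L ≤ n → ((n.choose (n / 2) : ℕ) : ℝ) ≤ g * 2 ^ n := by
  obtain ⟨K, hK⟩ := exists_nat_gt (1 / g ^ 2)
  refine ⟨2 * K, fun n hn => ?_⟩
  set m := n / 2 with hm
  have hmK : K ≤ m := by omega
  have h1 : ((Nat.centralBinom m : ℕ) : ℝ) ≤ g * 4 ^ m := by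
    have h := centralBinom_sq m
    have h' : ((Nat.centralBinom m : ℕ) : ℝ) ^ 2 * (2 * m + 1) ≤ 16 ^ m := by exact_mod_cast h
    have h2 : (1 : ℝ) ≤ g ^ 2 * (2 * m + 1) := by
      have h3 : 1 / g ^ 2 < (2 * m + 1 : ℝ) := by
        have : (K : ℝ) ≤ m := by exact_mod_cast hmK
        have : (0 : ℝ) ≤ m := Nat.cast_nonneg m
        linarith
      rw [div_lt_iff₀ (by positivity)] at h3
      linarith
    have h3 : ((Nat.centralBinom m : ℕ) : ℝ) ^ 2 ≤ (g * 4 ^ m) ^ 2 := by
      have h4 : (g * 4 ^ m) ^ 2 = g ^ 2 * 16 ^ m := by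
        rw [mul_pow, ← pow_mul, mul_comm m 2, pow_mul]; norm_num
      rw [h4]
      have hpos : (0 : ℝ) < 2 * m + 1 := by positivity
      have h5 : ((Nat.centralBinom m : ℕ) : ℝ) ^ 2 * (2 * m + 1) ≤ (g ^ 2 * 16 ^ m) * (2 * m + 1) := by
        calc _ ≤ (16 : ℝ) ^ m := h'
          _ = 1 * 16 ^ m := by ring
          _ ≤ (g ^ 2 * (2 * m + 1)) * 16 ^ m := by gcongr
          _ = _ := by ring
      exact le_of_mul_le_mul_right h5 hpos
    exact le_of_sq_le_sq h3 (by positivity) 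
  rcases Nat.even_or_odd n with he | ho
  · have hn2 : n = 2 * m := by obtain ⟨k, hk⟩ := he; omega
    have h2 : n.choose m = Nat.centralBinom m := by
      rw [hn2, Nat.centralBinom_eq_two_mul_choose]
    rw [h2]
    calc _ ≤ g * 4 ^ m := h1
      _ = g * 2 ^ n := by rw [hn2, pow_mul]; norm_num
  · have hn2 : n = 2 * m + 1 := by obtain ⟨k, hk⟩ := ho; omega
    have h2 : n.choose m ≤ 2 * Nat.centralBinom m := by
      rw [hn2]
      rcases Nat.eq_zero_or_pos m with h0 | h0
      · rw [h0]; simp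
      · obtain ⟨j, hj⟩ : ∃ j, m = j + 1 := ⟨m - 1, by omega⟩
        rw [hj, Nat.choose_succ_succ]
        have := Nat.choose_le_centralBinom j (j + 1)
        have h3 := Nat.choose_le_centralBinom (j + 1) (j + 1)
        simp only [Nat.succ_eq_add_one]
        omega
    calc ((n.choose m : ℕ) : ℝ) ≤ 2 * Nat.centralBinom m := by exact_mod_cast h2
      _ ≤ 2 * (g * 4 ^ m) := by gcongr
      _ = g * 2 ^ n := by rw [hn2, pow_succ, pow_mul]; norm_num; ring

/-- Sperner bound for a product measure. -/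
theorem prod_sperner (P : Finset ℕ) (e : ℕ → ℝ) (he0 : ∀ p ∈ P, 0 ≤ e p)
    (he1 : ∀ p ∈ P, e p ≤ 1 / 2) (𝒜 : Finset (Finset ℕ)) (hP : 𝒜 ⊆ P.powerset)
    (h𝒜 : IsAntichain (· ⊆ ·) (𝒜 : Set (Finset ℕ))) (L : ℕ) (g : ℝ) (hg0 : 0 ≤ g)
    (hg : ∀ n : ℕ, L ≤ n → ((n.choose (n / 2) : ℕ) : ℝ) ≤ g * 2 ^ n) :
    ∑ E ∈ 𝒜, (∏ p ∈ E, e p) * (∏ p ∈ P \ E, (1 - e p)) ≤ g + 2 ^ L * ∏ p ∈ P, (1 - e p) := by
  classical
  set c : Finset ℕ → ℝ := fun D => (∏ p ∈ D, e p) * ∏ p ∈ P \ D, (1 - 2 * e p) with hc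
  have hc0 : ∀ D ∈ P.powerset, 0 ≤ c D := by
    intro D hD
    rw [mem_powerset] at hD
    apply mul_nonneg
    · exact Finset.prod_nonneg fun p hp => he0 p (hD hp)
    · refine Finset.prod_nonneg fun p hp => ?_
      have := he1 p (Finset.sdiff_subset hp)
      linarith
  have hmu : ∀ E ∈ 𝒜, (∏ p ∈ E, e p) * (∏ p ∈ P \ E, (1 - e p))
      = ∑ D ∈ P.powerset, if E ⊆ D then c D else 0 := by
    intro E hE
    have hEP : E ⊆ P := mem_powerset.1 (hP hE)
    have h1 := Finset.prod_add (fun p => e p) (fun p => if p ∈ E then 0 else 1 - 2 * e p) P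
    have h2 : ∏ p ∈ P, (e p + if p ∈ E then (0 : ℝ) else 1 - 2 * e p)
        = (∏ p ∈ E, e p) * (∏ p ∈ P \ E, (1 - e p)) := by
      rw [← Finset.prod_sdiff hEP, mul_comm]
      congr 1
      · refine Finset.prod_congr rfl fun p hp => ?_
        rw [if_pos hp, add_zero]
      · refine Finset.prod_congr rfl fun p hp => ?_
        rw [if_neg (Finset.mem_sdiff.1 hp).2]; ring
    rw [← h2, h1]
    refine Finset.sum_congr rfl fun D hD => ?_
    split_ifs with h
    · rw [hc]
      congr 1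
      refine Finset.prod_congr rfl fun p hp => ?_
      rw [if_neg]
      intro hpE
      exact (Finset.mem_sdiff.1 hp).2 (h hpE)
    · obtain ⟨p, hpE, hpD⟩ := Finset.not_subset.1 h
      rw [Finset.prod_eq_zero (i := p) (s := P \ D)]
      · simp
      · exact Finset.mem_sdiff.2 ⟨hEP hpE, hpD⟩
      · simp [hpE]
  rw [Finset.sum_congr rfl hmu, Finset.sum_comm]
  have hin : ∀ D ∈ P.powerset, (∑ E ∈ 𝒜, if E ⊆ D then c D else 0)
      ≤ g * (c D * 2 ^ D.card) + 2 ^ L * c D := by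
    intro D hD
    rw [← Finset.sum_filter, Finset.sum_const, nsmul_eq_mul]
    have h1 : ((𝒜.filter (· ⊆ D)).card : ℝ) ≤ g * 2 ^ D.card + 2 ^ L := by
      have h2 : ((𝒜.filter (· ⊆ D)).card : ℝ) ≤ ((D.card.choose (D.card / 2) : ℕ) : ℝ) := by
        exact_mod_cast sperner_on D 𝒜 h𝒜
      by_cases hL : L ≤ D.card
      · have h3 := hg _ hL
        have : (0 : ℝ) ≤ 2 ^ L := by positivity
        linarith
      · have h3 : D.card.choose (D.card / 2) ≤ 2 ^ L :=
          (Nat.choose_le_two_pow _ _).trans (Nat.pow_le_pow_right (by norm_num) (by omega))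
        have h4 : ((D.card.choose (D.card / 2) : ℕ) : ℝ) ≤ 2 ^ L := by exact_mod_cast h3
        have : (0 : ℝ) ≤ g * 2 ^ D.card := by positivity
        linarith
    have := hc0 D hD
    nlinarith
  refine (Finset.sum_le_sum hin).trans ?_
  rw [Finset.sum_add_distrib, ← Finset.mul_sum, ← Finset.mul_sum]
  have hs1 : ∑ D ∈ P.powerset, c D * 2 ^ D.card = 1 := by
    have h1 := Finset.prod_add (fun p => 2 * e p) (fun p => 1 - 2 * e p) P
    have h2 : ∏ p ∈ P, (2 * e p + (1 - 2 * e p)) = 1 := by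
      refine Finset.prod_eq_one fun p _ => by ring
    rw [← h2, h1]
    refine Finset.sum_congr rfl fun D _ => ?_
    rw [hc]
    simp only
    rw [Finset.prod_mul_distrib, Finset.prod_const]
    ring
  have hs2 : ∑ D ∈ P.powerset, c D = ∏ p ∈ P, (1 - e p) := by
    have h1 := Finset.prod_add (fun p => e p) (fun p => 1 - 2 * e p) P
    rw [← h1]
    refine Finset.prod_congr rfl fun p _ => by ring
  rw [hs1, hs2]
  linarith

/-- There are finite sets of primes with arbitrarily small `∏ (1 - 1/(p+1))`. -/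
theorem exists_primes (δ : ℝ) (hδ : 0 < δ) :
    ∃ P : Finset ℕ, (∀ p ∈ P, p.Prime) ∧ ∏ p ∈ P, (1 - 1 / ((p : ℝ) + 1)) ≤ δ := by
  classical
  have hns : ¬ Summable (fun p : Nat.Primes => (1 / ((p : ℕ) + 1 : ℝ))) := by
    intro h
    apply Nat.Primes.not_summable_one_div
    refine Summable.of_nonneg_of_le (fun p => by positivity) (fun p => ?_) (h.mul_left 2)
    have hp : (1 : ℝ) ≤ ((p : ℕ) : ℝ) := by exact_mod_cast p.2.one_le
    rw [mul_one_div, div_le_div_iff₀ (by positivity) (by positivity)]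
    linarith
  obtain ⟨S, hS⟩ : ∃ S : Finset Nat.Primes, Real.log (1 / δ) < ∑ p ∈ S, (1 / ((p : ℕ) + 1 : ℝ)) := by
    by_contra hcon
    push Not at hcon
    exact hns (summable_of_sum_le (fun p => by positivity) hcon)
  refine ⟨S.map ⟨fun p : Nat.Primes => (p : ℕ), Nat.Primes.coe_nat_injective⟩, ?_, ?_⟩
  · intro p hp
    simp only [mem_map, Function.Embedding.coeFn_mk] at hp
    obtain ⟨q, _, rfl⟩ := hp
    exact q.2
  · rw [Finset.prod_map]
    simp only [Function.Embedding.coeFn_mk]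
    calc ∏ p ∈ S, (1 - 1 / (((p : ℕ) : ℝ) + 1))
        ≤ ∏ p ∈ S, Real.exp (-(1 / (((p : ℕ) : ℝ) + 1))) := by
          refine Finset.prod_le_prod (fun p _ => ?_) fun p _ => ?_
          · have hp : (1 : ℝ) ≤ ((p : ℕ) : ℝ) := by exact_mod_cast p.2.one_le
            rw [sub_nonneg, div_le_one (by positivity)]
            linarith
          · have := Real.add_one_le_exp (-(1 / (((p : ℕ) : ℝ) + 1)))
            linarith
      _ = Real.exp (-∑ p ∈ S, (1 / (((p : ℕ) : ℝ) + 1))) := by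
          rw [← Real.exp_sum, Finset.sum_neg_distrib]
      _ ≤ Real.exp (-Real.log (1 / δ)) := by
          apply Real.exp_le_exp.2
          linarith
      _ = δ := by
          rw [one_div, Real.log_inv, neg_neg, Real.exp_log hδ]

end Pool.Agent.V11124.PW
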